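import Pool.Agent.Helper10.Ver.Defs

/-!
Covers of veronesean embeddings.
-/

set_option autoImplicit false

namespace Pool.Agent.Helper10.Ver

open Module

variable {F : Type} [Field F] {P : Type} {W : Type} [AddCommGroup W] [Module F W]
  {W' : Type} [AddCommGroup W'] [Module F W']

/-- A veronesean embedding, except that the image need not span. -/
structure IsVer0 (L : Set (Set P)) (ε : P → Submodule F W) : Prop where
  point : ∀ p, finrank F (ε p) = 1
  inj : Function.Injective ε
  conic : ∀ l ∈ L, IsConic F (ε '' l)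
  off : ∀ l ∈ L, ∀ p ∉ l, ε p ⊓ (⨆ r ∈ l, ε r) = ⊥

lemma isConic_map {s : W →ₗ[F] W'} (hs : Function.Injective s) {C : Set (Submodule F W)}
    (hC : IsConic F C) : IsConic F ((Submodule.map s) '' C) := by
  obtain ⟨a, b, c, hli, rfl⟩ := hC
  refine ⟨s a, s b, s c, ?_, ?_⟩
  · have h1 := hli.map' s (LinearMap.ker_eq_bot.mpr hs)
    have h2 : s ∘ ![a, b, c] = ![s a, s b, s c] := by
      funext i
      fin_cases i <;> rfl
    rw [h2] at h1
    exact h1
  · ext Q
    constructor
    · rintro ⟨P, ⟨u, v, huv, rfl⟩, rfl⟩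
      refine ⟨u, v, huv, ?_⟩
      rw [Submodule.map_span, Set.image_singleton]
      simp only [map_add, map_smul]
    · rintro ⟨u, v, huv, rfl⟩
      refine ⟨_, ⟨u, v, huv, rfl⟩, ?_⟩
      rw [Submodule.map_span, Set.image_singleton]
      simp only [map_add, map_smul]

/-- Lifting along functionals that are compatible on each line. -/
lemma isVer0_lift {L : Set (Set P)} {ε : P → Submodule F W} (hε : IsVer0 L ε)
    (Φ : P → W →ₗ[F] F)
    (hΦ : ∀ l ∈ L, ∃ Ψ : W →ₗ[F] F, ∀ p ∈ l, ∀ x ∈ ε p, Φ p x = Ψ x) :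
    IsVer0 L (fun p => (ε p).map ((LinearMap.id : W →ₗ[F] W).prod (Φ p))) := by
  have hinj : ∀ Ψ : W →ₗ[F] F, Function.Injective ((LinearMap.id : W →ₗ[F] W).prod Ψ) := by
    intro Ψ x y hxy
    exact congrArg Prod.fst hxy
  have hfst : ∀ p, ((ε p).map ((LinearMap.id : W →ₗ[F] W).prod (Φ p))).map (LinearMap.fst F W F) =
      ε p := by
    intro p
    rw [← Submodule.map_comp]
    have : (LinearMap.fst F W F) ∘ₗ ((LinearMap.id : W →ₗ[F] W).prod (Φ p)) = LinearMap.id := rfl
    rw [this, Submodule.map_id]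
  refine ⟨?_, ?_, ?_, ?_⟩
  · intro p
    rw [← (Submodule.equivMapOfInjective _ (hinj (Φ p)) (ε p)).finrank_eq]
    exact hε.point p
  · intro p p' h
    apply hε.inj
    have := congrArg (Submodule.map (LinearMap.fst F W F)) h
    simp only [hfst] at this
    exact this
  · intro l hl
    obtain ⟨Ψ, hΨ⟩ := hΦ l hl
    have h1 : (fun p => (ε p).map ((LinearMap.id : W →ₗ[F] W).prod (Φ p))) '' l =
        (Submodule.map ((LinearMap.id : W →ₗ[F] W).prod Ψ)) '' (ε '' l) := by
      rw [Set.image_image]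
      apply Set.image_congr
      intro p hp
      ext y
      constructor
      · rintro ⟨x, hx, rfl⟩
        exact ⟨x, hx, by simp [hΨ p hp x hx]⟩
      · rintro ⟨x, hx, rfl⟩
        exact ⟨x, hx, by simp [hΨ p hp x hx]⟩
    rw [h1]
    exact isConic_map (hinj Ψ) (hε.conic l hl)
  · intro l hl p hp
    rw [Submodule.eq_bot_iff]
    rintro y ⟨⟨x, hx, rfl⟩, hy⟩
    have h1 : x ∈ ⨆ r ∈ l, ε r := by
      have h3 : (⨆ r ∈ l, (ε r).map ((LinearMap.id : W →ₗ[F] W).prod (Φ r))).map
          (LinearMap.fst F W F) = ⨆ r ∈ l, ε r := by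
        simp only [Submodule.map_iSup, hfst]
      rw [← h3]
      exact ⟨_, hy, rfl⟩
    have h4 : x ∈ ε p ⊓ ⨆ r ∈ l, ε r := ⟨hx, h1⟩
    rw [hε.off l hl p hp, Submodule.mem_bot] at h4
    rw [h4, map_zero]

/-- Restricting to the span of the image. -/
lemma isVeronesean_restrict {L : Set (Set P)} {ε : P → Submodule F W} (hε : IsVer0 L ε) :
    IsVeronesean L (fun p => (ε p).comap (⨆ p, ε p).subtype) := by
  set S := ⨆ p, ε p with hS
  have hle : ∀ p, ε p ≤ S := fun p => le_iSup ε p
  have hmap : ∀ p, ((ε p).comap S.subtype).map S.subtype = ε p := by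
    intro p
    rw [Submodule.map_comap_subtype, inf_eq_right.mpr (hle p)]
  have hminj : Function.Injective (Submodule.map S.subtype) :=
    Submodule.map_injective_of_injective S.injective_subtype
  refine ⟨?_, ?_, ?_, ?_, ?_⟩
  · intro p
    rw [(Submodule.equivMapOfInjective _ S.injective_subtype _).finrank_eq, hmap]
    exact hε.point p
  · intro p p' h
    apply hε.inj
    have := congrArg (Submodule.map S.subtype) h
    simp only [hmap] at this
    exact this
  · intro l hl
    obtain ⟨a, b, c, hli, hC⟩ := hε.conic l hl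
    have hmem : ∀ s t : F, (s ≠ 0 ∨ t ≠ 0) → s ^ 2 • a + (s * t) • b + t ^ 2 • c ∈ S := by
      intro s t hst
      have h1 : Submodule.span F {s ^ 2 • a + (s * t) • b + t ^ 2 • c} ∈ ε '' l := by
        rw [hC]
        exact ⟨s, t, hst, rfl⟩
      obtain ⟨p, _, hp⟩ := h1
      apply hle p
      rw [hp]
      exact Submodule.mem_span_singleton_self _
    have ha : a ∈ S := by simpa using hmem 1 0 (Or.inl one_ne_zero)
    have hc : c ∈ S := by simpa using hmem 0 1 (Or.inr one_ne_zero)
    have hb : b ∈ S := by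
      have h1 := hmem 1 1 (Or.inl one_ne_zero)
      simp only [one_pow, mul_one, one_smul] at h1
      have h3 := S.sub_mem (S.sub_mem h1 ha) hc
      have h4 : a + b + c - a - c = b := by abel
      rwa [h4] at h3
    refine ⟨⟨a, ha⟩, ⟨b, hb⟩, ⟨c, hc⟩, ?_, ?_⟩
    · apply LinearIndependent.of_comp S.subtype
      have h2 : S.subtype ∘ ![(⟨a, ha⟩ : S), ⟨b, hb⟩, ⟨c, hc⟩] = ![a, b, c] := by
        funext i
        fin_cases i <;> rfl
      rw [h2]
      exact hli
    · ext Q
      have hms : ∀ s t : F, (Submodule.span F {s ^ 2 • (⟨a, ha⟩ : S) + (s * t) • (⟨b, hb⟩ : S) +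
          t ^ 2 • (⟨c, hc⟩ : S)}).map S.subtype =
          Submodule.span F {s ^ 2 • a + (s * t) • b + t ^ 2 • c} := by
        intro s t
        rw [Submodule.map_span, Set.image_singleton]
        rfl
      constructor
      · rintro ⟨p, hp, rfl⟩
        have h1 : ε p ∈ ε '' l := ⟨p, hp, rfl⟩
        rw [hC] at h1
        obtain ⟨s, t, hst, h3⟩ := h1
        refine ⟨s, t, hst, ?_⟩
        apply hminj
        rw [hms, hmap, h3]
      · rintro ⟨s, t, hst, rfl⟩
        have h1 : Submodule.span F {s ^ 2 • a + (s * t) • b + t ^ 2 • c} ∈ ε '' l := by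
          rw [hC]
          exact ⟨s, t, hst, rfl⟩
        obtain ⟨p, hp, h3⟩ := h1
        refine ⟨p, hp, ?_⟩
        apply hminj
        rw [hms]
        simp only [hmap]
        exact h3
  · intro l hl p hp
    apply hminj
    rw [Submodule.map_inf _ S.injective_subtype, Submodule.map_bot]
    simp only [Submodule.map_iSup, hmap]
    exact hε.off l hl p hp
  · apply hminj
    simp only [Submodule.map_iSup, hmap]
    rw [Submodule.map_top, Submodule.range_subtype]

end Pool.Agent.Helper10.Ver
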