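import Mathlib

/-!
Veronesean embeddings of point-line geometries and the dual polar spaces of type `B_n`.
-/

set_option autoImplicit false

namespace Pool.Agent.Helper10.Ver

open Module

section Embeddings

/-- A non-singular conic of `PG(W)`: the image of the standard conic `{(s², st, t²)}` under an
injective linear map `F³ → W`. Points of `PG(W)` are written as `1`-dimensional subspaces. -/
def IsConic (F : Type) [Field F] {W : Type} [AddCommGroup W] [Module F W]
    (C : Set (Submodule F W)) : Prop :=
  ∃ a b c : W, LinearIndependent F ![a, b, c] ∧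
    C = {P | ∃ s t : F, (s ≠ 0 ∨ t ≠ 0) ∧ P = Submodule.span F {s ^ 2 • a + (s * t) • b + t ^ 2 • c}}

/-- Veronesean embeddings in `PG(W)` of the point-line geometry with point set `P` and set of
lines `L`. -/
structure IsVeronesean {F : Type} [Field F] {P : Type} (L : Set (Set P)) {W : Type}
    [AddCommGroup W] [Module F W] (ε : P → Submodule F W) : Prop where
  /-- points go to points of `PG(W)` -/
  point : ∀ p, finrank F (ε p) = 1
  /-- the map is injective -/
  inj : Function.Injective ε
  /-- every line goes onto a non-singular conic -/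
  conic : ∀ l ∈ L, IsConic F (ε '' l)
  /-- `ε(p) ∩ ⟨ε(l)⟩ = 0` whenever the point `p` is not on the line `l` -/
  off : ∀ l ∈ L, ∀ p ∉ l, ε p ⊓ (⨆ r ∈ l, ε r) = ⊥
  /-- the image spans `W` -/
  span : ⨆ p, ε p = ⊤

/-- The embedding `ε` is relatively universal: every (semilinear) morphism from a veronesean
embedding `ε'` of the same geometry to `ε` is bijective. -/
def RelativelyUniversal {F : Type} [Field F] {P : Type} (L : Set (Set P)) {W : Type}
    [AddCommGroup W] [Module F W] (ε : P → Submodule F W) : Prop :=
  ∀ (W' : Type) [AddCommGroup W'] [Module F W'] (ε' : P → Submodule F W'),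
    IsVeronesean L ε' → ∀ (σ : F ≃+* F) (f : W' →ₛₗ[(σ : F →+* F)] W),
      (∀ p, ε p = (ε' p).map f) → Function.Bijective f

end Embeddings

section DualPolar

variable {F : Type} [Field F] {V : Type} [AddCommGroup V] [Module F V]

/-- `Z` is totally singular for `q`. -/
def TotSing (q : QuadraticForm F V) (Z : Submodule F V) : Prop := ∀ z ∈ Z, q z = 0

/-- `q` is non-singular (characteristic not `2`): its polar form is non-degenerate. -/
def NonSing (q : QuadraticForm F V) : Prop :=
  ∀ x, (∀ y, QuadraticMap.polar q x y = 0) → x = 0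

/-- The Witt index of `q` is `n`. -/
def HasWittIndex (q : QuadraticForm F V) (n : ℕ) : Prop :=
  (∃ Z, TotSing q Z ∧ finrank F Z = n) ∧ ∀ Z, TotSing q Z → finrank F Z ≤ n

/-- The orthogonal space `X^⊥` of `X`. -/
def perp (q : QuadraticForm F V) (X : Submodule F V) : Submodule F V where
  carrier := {v | ∀ x ∈ X, QuadraticMap.polar q x v = 0}
  add_mem' := by
    intro a b ha hb x hx
    rw [QuadraticMap.polar_add_right, ha x hx, hb x hx, add_zero]
  zero_mem' := by
    intro x _
    simp
  smul_mem' := by
    intro c a ha x hx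
    rw [QuadraticMap.polar_smul_right, ha x hx, smul_zero]

/-- The points of the dual polar space `Δ_n`: the `n`-dimensional totally singular subspaces. -/
abbrev Pt (q : QuadraticForm F V) (n : ℕ) : Type :=
  {Z : Submodule F V // TotSing q Z ∧ finrank F Z = n}

/-- The lines of `Δ_n`: the sets `l_X = {Z : X ⊂ Z ⊂ X^⊥}` for `X` totally singular of
dimension `n - 1`. -/
def dualPolarLines (q : QuadraticForm F V) (n : ℕ) : Set (Set (Pt q n)) :=
  {l | ∃ X : Submodule F V, TotSing q X ∧ finrank F X + 1 = n ∧
    l = {Z : Pt q n | X ≤ Z.1 ∧ Z.1 ≤ perp q X}}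

/-- The Grassmann embedding `⟨v₁, …, v_n⟩ ↦ ⟨v₁ ∧ … ∧ v_n⟩` of `Δ_n`. -/
def grassmann (q : QuadraticForm F V) (n : ℕ) (Z : Pt q n) : Submodule F (⋀[F]^n V) :=
  Submodule.span F {x | ∃ v : Fin n → V, (∀ i, v i ∈ Z.1) ∧ x = exteriorPower.ιMulti F n v}

/-- `V` has dimension `2n + 1` and `q` is non-singular of Witt index `n`. -/
def IsBnForm (q : QuadraticForm F V) (n : ℕ) : Prop :=
  finrank F V = 2 * n + 1 ∧ NonSing q ∧ HasWittIndex q n

/-- The Grassmann embedding of the dual polar space `Δ_n` of `q` is relatively universal. -/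
def GrassmannUniversal (q : QuadraticForm F V) (n : ℕ) : Prop :=
  RelativelyUniversal (dualPolarLines q n) (grassmann q n)

end DualPolar

end Pool.Agent.Helper10.Ver
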