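import Pool.Agent.Helper10.Ver.Grass

/-!
The extra coordinate coming from a derivation.
-/

set_option autoImplicit false

namespace Pool.Agent.Helper10.Ver

open Module QuadraticMap

variable {F : Type} [Field F] {V : Type} [AddCommGroup V] [Module F V]

section Forms

variable {M : Type} [AddCommGroup M] [Module F M]

/-- `(v_i) ↦ a(v₀, v₁) μ₀(v₂) ⋯ μ_{k-1}(v_{k+1})`. -/
noncomputable def prodForm {k : ℕ} (a : M →ₗ[F] M →ₗ[F] F) (μ : Fin k → M →ₗ[F] F) :
    MultilinearMap F (fun _ : Fin (k + 2) => M) F :=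
  LinearMap.uncurryLeft (R := F) (M := fun _ : Fin (k + 2) => M) (M₂ := F)
    { toFun := fun v0 => LinearMap.uncurryLeft (R := F) (M := fun _ : Fin (k + 1) => M) (M₂ := F)
        ((a v0).smulRight ((MultilinearMap.mkPiAlgebra F (Fin k) F).compLinearMap μ))
      map_add' := by
        intro x y
        ext v
        simp [add_mul]
      map_smul' := by
        intro c x
        ext v
        simp [mul_assoc] }

lemma prodForm_apply {k : ℕ} (a : M →ₗ[F] M →ₗ[F] F) (μ : Fin k → M →ₗ[F] F)
    (v : Fin (k + 2) → M) :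
    prodForm a μ v = a (v 0) (v 1) * ∏ i, μ i (v i.succ.succ) := by
  simp [prodForm, Fin.tail]

lemma exists_functional {k : ℕ} (μ : Fin k → V →ₗ[F] F) (Y : Submodule F V)
    (A : Y →ₗ[F] Y →ₗ[F] F) :
    ∃ Φ : (⋀[F]^(k + 2) V) →ₗ[F] F, ∀ (v : Fin (k + 2) → V) (hv : ∀ i, v i ∈ Y),
      Φ (exteriorPower.ιMulti F (k + 2) v) = ∑ σ : Equiv.Perm (Fin (k + 2)), Equiv.Perm.sign σ •
        (A ⟨v (σ 0), hv _⟩ ⟨v (σ 1), hv _⟩ * ∏ i, μ i (v (σ i.succ.succ))) := by
  classical
  obtain ⟨π, hπ⟩ := Y.subtype.exists_leftInverse_of_injective Y.ker_subtype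
  refine ⟨exteriorPower.alternatingMapLinearEquiv
    ((MultilinearMap.alternatization (prodForm A (fun i => μ i ∘ₗ Y.subtype))).compLinearMap π), ?_⟩
  intro v hv
  rw [exteriorPower.alternatingMapLinearEquiv_apply_ιMulti, AlternatingMap.compLinearMap_apply,
    MultilinearMap.alternatization_apply]
  apply Finset.sum_congr rfl
  intro σ _
  congr 1
  rw [MultilinearMap.domDomCongr_apply, prodForm_apply]
  have hπv : ∀ i, π (v i) = ⟨v i, hv i⟩ := by
    intro i
    have h4 := congrArg (fun φ => φ ⟨v i, hv i⟩) hπ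
    simpa using h4
  simp only [hπv, LinearMap.comp_apply, Submodule.subtype_apply]

end Forms

/-- A metric connection on `(V, q)` over the derivation `D`. -/
structure Conn (q : QuadraticForm F V) (D : Derivation ℤ F F) where
  nab : V → V
  add : ∀ u v, nab (u + v) = nab u + nab v
  smul : ∀ (c : F) u, nab (c • u) = c • nab u + D c • u
  metric : ∀ u v, q.polarBilin (nab u) v + q.polarBilin u (nab v) = D (q.polarBilin u v)

namespace Conn

variable {q : QuadraticForm F V} {D : Derivation ℤ F F} (N : Conn q D)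

/-- The alternating sum. -/
noncomputable def Psi {k : ℕ} (μ : Fin k → V →ₗ[F] F) (v : Fin (k + 2) → V) : F :=
  ∑ σ : Equiv.Perm (Fin (k + 2)), Equiv.Perm.sign σ •
    (q.polarBilin (N.nab (v (σ 0))) (v (σ 1)) * ∏ i, μ i (v (σ i.succ.succ)))

lemma zero : N.nab 0 = 0 := by
  have := N.add 0 0
  rw [add_zero] at this
  exact left_eq_add.mp this

lemma self (h2 : (2 : F) ≠ 0) {w : V} (hw : q w = 0) : q.polarBilin (N.nab w) w = 0 := by
  have := N.metric w w
  rw [polarB_symm q w (N.nab w), polarB_self, hw, mul_zero, map_zero, ← two_mul] at this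
  exact (mul_eq_zero.mp this).resolve_left h2

/-- The form `B(∇u, v)` on a totally singular subspace. -/
noncomputable def form {Z : Submodule F V} (hZ : TotSing q Z) : Z →ₗ[F] Z →ₗ[F] F :=
  LinearMap.mk₂ F (fun u v => q.polarBilin (N.nab u) (v : V))
    (by
      intro a b c
      rw [Submodule.coe_add, N.add, map_add, LinearMap.add_apply])
    (by
      intro r a b
      rw [Submodule.coe_smul, N.smul, map_add, map_smul, map_smul, LinearMap.add_apply,
        LinearMap.smul_apply, LinearMap.smul_apply, hZ.polar_eq a.2 b.2, smul_zero, add_zero])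
    (by
      intro a b c
      rw [Submodule.coe_add, map_add])
    (by
      intro r a b
      rw [Submodule.coe_smul, map_smul])

lemma exists_point {k : ℕ} (μ : Fin k → V →ₗ[F] F) {Z : Submodule F V} (hZ : TotSing q Z) :
    ∃ Φ : (⋀[F]^(k + 2) V) →ₗ[F] F, ∀ (v : Fin (k + 2) → V), (∀ i, v i ∈ Z) →
      Φ (exteriorPower.ιMulti F (k + 2) v) = N.Psi μ v := by
  obtain ⟨Φ, hΦ⟩ := exists_functional μ Z (N.form hZ)
  refine ⟨Φ, fun v hv => ?_⟩
  rw [hΦ v hv]
  rfl

/-- The form on `X^⊥`. -/
noncomputable def formX {X : Submodule F V} (hX : TotSing q X) (π : V →ₗ[F] X) :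
    perp q X →ₗ[F] perp q X →ₗ[F] F :=
  LinearMap.mk₂ F (fun u v => q.polarBilin (N.nab (π u)) (v : V) -
      q.polarBilin (N.nab (π v)) ((u : V) - π u))
    (by
      intro a b c
      simp only [Submodule.coe_add, map_add, N.add, LinearMap.add_apply, map_sub]
      ring)
    (by
      intro r a b
      have h1 : q.polarBilin (π a : V) (b : V) = 0 := b.2 _ (π a).2
      simp only [Submodule.coe_smul, map_smul, N.smul, map_add, LinearMap.add_apply, map_sub,
        LinearMap.smul_apply, h1, smul_eq_mul]
      ring)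
    (by
      intro a b c
      simp only [Submodule.coe_add, map_add, N.add, LinearMap.add_apply, map_sub]
      ring)
    (by
      intro r a b
      have h1 : q.polarBilin (π b : V) (a : V) = 0 := a.2 _ (π b).2
      have h3 : q.polarBilin (π b : V) (π a : V) = 0 := hX.polar_eq (π b).2 (π a).2
      simp only [Submodule.coe_smul, map_smul, N.smul, map_add, LinearMap.add_apply, map_sub,
        LinearMap.smul_apply, h1, h3, smul_eq_mul]
      ring)

lemma exists_line (h2 : (2 : F) ≠ 0) [FiniteDimensional F V] {k : ℕ} (μ : Fin k → V →ₗ[F] F)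
    {X : Submodule F V} (hX : TotSing q X) (hXk : finrank F X = k + 1) :
    ∃ Φ : (⋀[F]^(k + 2) V) →ₗ[F] F, ∀ Z : Submodule F V, TotSing q Z → finrank F Z = k + 2 →
      X ≤ Z → ∀ (v : Fin (k + 2) → V), (∀ i, v i ∈ Z) →
      Φ (exteriorPower.ιMulti F (k + 2) v) = N.Psi μ v := by
  classical
  obtain ⟨π, hπ⟩ := X.subtype.exists_leftInverse_of_injective X.ker_subtype
  have hπX : ∀ x (hx : x ∈ X), π x = ⟨x, hx⟩ := by
    intro x hx
    have h4 := congrArg (fun φ => φ ⟨x, hx⟩) hπ
    simpa using h4
  obtain ⟨Φ, hΦ⟩ := exists_functional μ (perp q X) (N.formX hX π)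
  refine ⟨Φ, ?_⟩
  intro Z hZ hZk hXZ v hv
  have hZp : Z ≤ perp q X := hZ.le_perp hXZ
  rw [hΦ v (fun i => hZp (hv i))]
  apply Finset.sum_congr rfl
  intro σ _
  congr 2
  -- compare the two forms
  have key : ∀ u ∈ Z, ∀ w ∈ Z, q.polarBilin (N.nab (π u)) w -
      q.polarBilin (N.nab (π w)) (u - π u) = q.polarBilin (N.nab u) w := by
    intro u hu w hw
    -- the one-dimensional complement
    let K : Submodule F Z := LinearMap.ker (π.domRestrict Z)
    have hrange : LinearMap.range (π.domRestrict Z) = ⊤ := by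
      rw [LinearMap.range_eq_top]
      intro x
      exact ⟨⟨x, hXZ x.2⟩, by rw [LinearMap.domRestrict_apply]; exact hπX _ x.2⟩
    have hK : finrank F K = 1 := by
      have h := LinearMap.finrank_range_add_finrank_ker (π.domRestrict Z)
      rw [hrange, finrank_top, hXk, hZk] at h
      change finrank F (LinearMap.ker (π.domRestrict Z)) = 1
      omega
    obtain ⟨⟨⟨g, hgZ⟩, hgK⟩, _, hg1⟩ := finrank_eq_one_iff'.mp hK
    have hrep : ∀ y ∈ Z, ∃ c : F, y - π y = c • g := by
      intro y hy
      have hyK : (⟨y - π y, Z.sub_mem hy (hXZ (π y).2)⟩ : Z) ∈ K := by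
        rw [LinearMap.mem_ker, LinearMap.domRestrict_apply]
        simp only [map_sub]
        rw [hπX _ (π y).2, sub_eq_zero]
      obtain ⟨c, hc⟩ := hg1 ⟨_, hyK⟩
      refine ⟨c, ?_⟩
      have := congrArg (fun x : K => ((x : Z) : V)) hc
      simpa using this.symm
    obtain ⟨a, ha⟩ := hrep u hu
    obtain ⟨b, hb⟩ := hrep w hw
    have hu' : u = π u + a • g := by rw [← ha]; abel
    have hw' : w = π w + b • g := by rw [← hb]; abel
    have hgg : q.polarBilin (N.nab g) g = 0 := N.self h2 (hZ g hgZ)
    have hgg' : q.polarBilin g g = 0 := hZ.polar_eq hgZ hgZ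
    have h1 : q.polarBilin (N.nab (u - π u)) (w - π w) = 0 := by
      rw [ha, hb, N.smul]
      simp only [map_add, map_smul, LinearMap.add_apply, LinearMap.smul_apply, hgg, hgg', smul_zero,
        add_zero]
    have h3 : q.polarBilin (N.nab (u - π u)) (π w) = - q.polarBilin (N.nab (π w)) (u - π u) := by
      have := N.metric (u - π u) (π w)
      rw [hZ.polar_eq (Z.sub_mem hu (hXZ (π u).2)) (hXZ (π w).2), map_zero,
        polarB_symm q (u - π u) (N.nab (π w))] at this
      linear_combination this
    have h4 : q.polarBilin (N.nab u) w = q.polarBilin (N.nab (π u)) w +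
        q.polarBilin (N.nab (u - π u)) w := by
      rw [← LinearMap.add_apply, ← map_add, ← N.add]
      congr 3
      abel
    have h5 : q.polarBilin (N.nab (u - π u)) w = q.polarBilin (N.nab (u - π u)) (π w) +
        q.polarBilin (N.nab (u - π u)) (w - π w) := by
      rw [← map_add]
      congr 1
      abel
    rw [h4, h5, h1, h3]
    ring
  exact key _ (hv _) _ (hv _)

/-- Evaluation. -/
lemma Psi_eval {k : ℕ} {μ : Fin k → V →ₗ[F] F} {v : Fin (k + 2) → V}
    (hμ : ∀ i j, μ i (v j) = if j = i.succ.succ then 1 else 0) :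
    N.Psi μ v = q.polarBilin (N.nab (v 0)) (v 1) - q.polarBilin (N.nab (v 1)) (v 0) := by
  classical
  unfold Psi
  have h01 : (0 : Fin (k + 2)) ≠ 1 := by simp
  have hne : (1 : Equiv.Perm (Fin (k + 2))) ≠ Equiv.swap 0 1 := by
    intro h
    have := congrArg (fun σ => σ 0) h
    simp at this
  rw [Finset.sum_eq_add (1 : Equiv.Perm (Fin (k + 2))) (Equiv.swap 0 1) hne]
  · have hs1 : ∀ i : Fin k, (Equiv.swap (0 : Fin (k + 2)) 1) i.succ.succ = i.succ.succ := by
      intro i
      apply Equiv.swap_apply_of_ne_of_ne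
      · exact Fin.succ_ne_zero _
      · intro h
        rw [← Fin.succ_zero_eq_one, Fin.succ_inj] at h
        exact Fin.succ_ne_zero _ h
    simp only [Equiv.Perm.sign_one, one_smul, Equiv.Perm.coe_one, id_eq, hμ, if_true,
      Finset.prod_const_one, mul_one, Equiv.swap_apply_left, Equiv.swap_apply_right, hs1,
      Equiv.Perm.sign_swap h01]
    simp only [Units.neg_smul, one_smul, sub_eq_add_neg]
  · intro σ _ hσ
    have hex : ∃ i : Fin k, σ i.succ.succ ≠ i.succ.succ := by
      by_contra hcon
      push Not at hcon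
      have h0 : σ 0 = 0 ∨ σ 0 = 1 := by
        rcases Fin.eq_zero_or_eq_succ (σ 0) with h | ⟨j, hj⟩
        · exact Or.inl h
        · rcases Fin.eq_zero_or_eq_succ j with h | ⟨j', hj'⟩
          · right
            rw [hj, h]
            rfl
          · exfalso
            rw [hj'] at hj
            have := hcon j'
            rw [← hj] at this
            exact Fin.succ_ne_zero _ (σ.injective (hj.symm ▸ hcon j' : σ j'.succ.succ = σ 0))
      have h1 : σ 1 = 0 ∨ σ 1 = 1 := by
        rcases Fin.eq_zero_or_eq_succ (σ 1) with h | ⟨j, hj⟩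
        · exact Or.inl h
        · rcases Fin.eq_zero_or_eq_succ j with h | ⟨j', hj'⟩
          · right
            rw [hj, h]
            rfl
          · exfalso
            rw [hj'] at hj
            have h3 : j'.succ.succ = (1 : Fin (k + 2)) :=
              σ.injective (hj.symm ▸ hcon j' : σ j'.succ.succ = σ 1)
            rw [← Fin.succ_zero_eq_one, Fin.succ_inj] at h3
            exact Fin.succ_ne_zero _ h3
      rcases h0 with h0 | h0
      · apply hσ.1
        ext i
        rcases Fin.eq_zero_or_eq_succ i with h | ⟨j, hj⟩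
        · rw [h, h0]
          rfl
        · rcases Fin.eq_zero_or_eq_succ j with h | ⟨j', hj'⟩
          · have hi : i = 1 := by rw [hj, h]; rfl
            rw [hi]
            rcases h1 with h1 | h1
            · exact absurd (σ.injective (h0.trans h1.symm)) h01
            · rw [h1]
              rfl
          · rw [hj, hj', hcon]
            rfl
      · apply hσ.2
        ext i
        rcases Fin.eq_zero_or_eq_succ i with h | ⟨j, hj⟩
        · rw [h, h0, Equiv.swap_apply_left]
        · rcases Fin.eq_zero_or_eq_succ j with h | ⟨j', hj'⟩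
          · have hi : i = 1 := by rw [hj, h]; rfl
            rw [hi, Equiv.swap_apply_right]
            rcases h1 with h1 | h1
            · rw [h1]
            · exact absurd (σ.injective (h0.trans h1.symm)) h01
          · rw [hj, hj', hcon, Equiv.swap_apply_of_ne_of_ne]
            · exact Fin.succ_ne_zero _
            · intro h
              rw [← Fin.succ_zero_eq_one, Fin.succ_inj] at h
              exact Fin.succ_ne_zero _ h
    obtain ⟨i, hi⟩ := hex
    have : ∏ i, μ i (v (σ i.succ.succ)) = 0 := by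
      apply Finset.prod_eq_zero (Finset.mem_univ i)
      rw [hμ, if_neg hi]
    rw [this, mul_zero, smul_zero]
  · intro h
    exact absurd (Finset.mem_univ _) h
  · intro h
    exact absurd (Finset.mem_univ _) h

end Conn

end Pool.Agent.Helper10.Ver
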