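import Pool.Agent.Helper10.Ver.Wedge
import Pool.Agent.Helper10.Ver.Cover

/-!
The Grassmann embedding of `Δ_n` is veronesean (up to the question whether it spans).
-/

set_option autoImplicit false

namespace Pool.Agent.Helper10.Ver

open Module QuadraticMap

variable {F : Type} [Field F] {V : Type} [AddCommGroup V] [Module F V]

/-- A span of pairwise orthogonal singular vectors is totally singular. -/
lemma totSing_span {q : QuadraticForm F V} {ι : Type} {v : ι → V} (h0 : ∀ i, q (v i) = 0)
    (h1 : ∀ i j, q.polarBilin (v i) (v j) = 0) :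
    TotSing q (Submodule.span F (Set.range v)) := by
  have key : ∀ x ∈ Submodule.span F (Set.range v), ∀ y ∈ Submodule.span F (Set.range v),
      q.polarBilin x y = 0 := by
    intro x hx y hy
    induction hx using Submodule.span_induction with
    | mem x hx =>
      obtain ⟨i, rfl⟩ := hx
      induction hy using Submodule.span_induction with
      | mem y hy =>
        obtain ⟨j, rfl⟩ := hy
        exact h1 i j
      | zero => exact map_zero _
      | add a b _ _ ha hb => rw [map_add, ha, hb, add_zero]
      | smul c a _ ha => rw [map_smul, ha, smul_zero]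
    | zero => rw [map_zero, LinearMap.zero_apply]
    | add a b _ _ ha hb => rw [map_add, LinearMap.add_apply, ha, hb, add_zero]
    | smul c a _ ha => rw [map_smul, LinearMap.smul_apply, ha, smul_zero]
  intro x hx
  induction hx using Submodule.span_induction with
  | mem x hx =>
    obtain ⟨i, rfl⟩ := hx
    exact h0 i
  | zero => exact QuadraticMap.map_zero q
  | add a b ha' hb' ha hb => rw [q_add, ha, hb, key a ha' b hb', add_zero, add_zero]
  | smul c a _ ha => rw [q_smul, ha, mul_zero]

lemma TotSing.le_perp {q : QuadraticForm F V} {X Z : Submodule F V} (hZ : TotSing q Z)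
    (h : X ≤ Z) : Z ≤ perp q X := by
  intro z hz
  rw [mem_perp]
  intro x hx
  exact hZ.polar_eq (h hx) hz

/-- Coordinates on `X^⊥` for `X` totally singular of dimension `n - 1`. -/
lemma line_data [FiniteDimensional F V] (h2 : (2 : F) ≠ 0) {q : QuadraticForm F V}
    (hq : NonSing q) {m : ℕ} (hd : finrank F V = 2 * (m + 1) + 1) (hW : HasWittIndex q (m + 1))
    {X : Submodule F V} (hX : TotSing q X) (hXm : finrank F X = m) :
    ∃ (x : Fin m → V) (y y' z : V), LinearIndependent F x ∧ (∀ i, x i ∈ X) ∧
      Submodule.span F (Set.range x) = X ∧ q z ≠ 0 ∧ q y = 0 ∧ q y' = 0 ∧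
      q.polarBilin y y' = 1 ∧ q.polarBilin y z = 0 ∧ q.polarBilin y' z = 0 ∧
      (∀ u ∈ X, q.polarBilin u y = 0) ∧ (∀ u ∈ X, q.polarBilin u y' = 0) ∧
      (∀ u ∈ X, q.polarBilin u z = 0) ∧
      ∀ w ∈ perp q X, ∃ u ∈ X, w = u + (q.polarBilin y' w) • y + (q.polarBilin y w) • y' +
        (q.polarBilin z w / (2 * q z)) • z := by
  classical
  obtain ⟨x, hx, hxm, hxX⟩ := exists_basis hXm
  obtain ⟨y, hyX, hqy, hxy⟩ := exists_extend hW (X := X) (by omega)
  have he : LinearIndependent F (Fin.cons y x : Fin (m + 1) → V) := by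
    rw [linearIndependent_finCons]
    exact ⟨hx, by rw [hxX]; exact hyX⟩
  have hee : ∀ i j, q.polarBilin ((Fin.cons y x : Fin (m + 1) → V) i)
      ((Fin.cons y x : Fin (m + 1) → V) j) = 0 := by
    intro i j
    refine Fin.cases ?_ (fun i => ?_) i <;> refine Fin.cases ?_ (fun j => ?_) j
    · rw [Fin.cons_zero, polarB_self, hqy, mul_zero]
    · rw [Fin.cons_zero, Fin.cons_succ, polarB_symm]
      exact hxy _ (hxm j)
    · rw [Fin.cons_zero, Fin.cons_succ]
      exact hxy _ (hxm i)
    · rw [Fin.cons_succ, Fin.cons_succ]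
      exact hX.polar_eq (hxm i) (hxm j)
  obtain ⟨f, hef, hff⟩ := exists_hyp h2 hq he hee
  obtain ⟨z, hqz, hez, hfz, hexp⟩ := exists_aniso h2 hq hd hee hef hff
  have hXle : ∀ (g : V), (∀ i : Fin m, q.polarBilin (x i) g = 0) → ∀ u ∈ X, q.polarBilin u g = 0 := by
    intro g hg u hu
    rw [← hxX] at hu
    induction hu using Submodule.span_induction with
    | mem u hu =>
      obtain ⟨i, rfl⟩ := hu
      exact hg i
    | zero => rw [map_zero, LinearMap.zero_apply]
    | add a b _ _ ha hb => rw [map_add, LinearMap.add_apply, ha, hb, add_zero]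
    | smul c a _ ha => rw [map_smul, LinearMap.smul_apply, ha, smul_zero]
  have hqf : q (f 0) = 0 := by
    have := polarB_self q (f 0)
    rw [hff] at this
    exact (mul_eq_zero.mp this.symm).resolve_left h2
  refine ⟨x, y, f 0, z, hx, hxm, hxX, hqz, hqy, hqf, ?_, ?_, ?_, hxy, ?_, ?_, ?_⟩
  · have := hef 0 0
    simpa using this
  · have := hez 0
    rwa [Fin.cons_zero] at this
  · exact hfz 0
  · apply hXle
    intro i
    have := hef i.succ 0
    rw [Fin.cons_succ, if_neg (Fin.succ_ne_zero i)] at this
    exact this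
  · apply hXle
    intro i
    have := hez i.succ
    rwa [Fin.cons_succ] at this
  · intro w hw
    rw [mem_perp] at hw
    have h1 := hexp w
    rw [Fin.sum_univ_succ, Fin.sum_univ_succ (f := fun i => (q.polarBilin
      ((Fin.cons y x : Fin (m + 1) → V) i)) w • f i)] at h1
    simp only [Fin.cons_zero, Fin.cons_succ] at h1
    have h3 : ∑ i : Fin m, q.polarBilin (x i) w • f i.succ = 0 := by
      apply Finset.sum_eq_zero
      intro i _
      rw [hw _ (hxm i), zero_smul]
    rw [h3, add_zero] at h1
    refine ⟨∑ i : Fin m, q.polarBilin (f i.succ) w • x i, ?_, ?_⟩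
    · exact X.sum_mem fun i _ => X.smul_mem _ (hxm i)
    · conv_lhs => rw [h1]
      abel

/-- `w ↦ w ∧ x₁ ∧ … ∧ x_m`. -/
noncomputable def wedgeL {m : ℕ} (x : Fin m → V) : V →ₗ[F] ⋀[F]^(m + 1) V where
  toFun w := exteriorPower.ιMulti F (m + 1) (Matrix.vecCons w x)
  map_add' a b := (exteriorPower.ιMulti F (m + 1)).map_vecCons_add x a b
  map_smul' c a := (exteriorPower.ιMulti F (m + 1)).map_vecCons_smul x c a

lemma wedgeL_apply {m : ℕ} (x : Fin m → V) (w : V) :
    wedgeL (F := F) x w = exteriorPower.ιMulti F (m + 1) (Matrix.vecCons w x) := rfl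

lemma wedgeL_eq_zero {m : ℕ} {x : Fin m → V} (hx : LinearIndependent F x) {w : V} :
    wedgeL (F := F) x w = 0 ↔ w ∈ Submodule.span F (Set.range x) := by
  constructor
  · intro h
    by_contra hn
    apply iota_ne_zero (F := F) (v := Matrix.vecCons w x) _ h
    rw [show Matrix.vecCons w x = Fin.cons w x from rfl, linearIndependent_finCons]
    exact ⟨hx, hn⟩
  · intro h
    rw [wedgeL_apply]
    apply Subtype.ext
    rw [exteriorPower.ιMulti_apply_coe, ExteriorAlgebra.ιMulti_succ_apply]
    have := wedge_zero_of_mem (F := F) h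
    simpa using this

lemma grassmann_eq {q : QuadraticForm F V} {n : ℕ} [FiniteDimensional F V] (Z : Pt q n)
    {v : Fin n → V} (hv : LinearIndependent F v) (hm : ∀ i, v i ∈ Z.1) :
    grassmann q n Z = Submodule.span F {exteriorPower.ιMulti F n v} :=
  grassmann_aux Z.2.2 hv hm

/-- The members of a line: `Z = ⟨X, w⟩`. -/
lemma grassmann_line {q : QuadraticForm F V} {m : ℕ} [FiniteDimensional F V] (Z : Pt q (m + 1))
    {x : Fin m → V} (hx : LinearIndependent F x) (hxZ : ∀ i, x i ∈ Z.1) {w : V} (hw : w ∈ Z.1)
    (hwx : w ∉ Submodule.span F (Set.range x)) :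
    grassmann q (m + 1) Z = Submodule.span F {wedgeL (F := F) x w} := by
  rw [wedgeL_apply]
  apply grassmann_eq
  · rw [show Matrix.vecCons w x = Fin.cons w x from rfl, linearIndependent_finCons]
    exact ⟨hx, hwx⟩
  · intro i
    refine Fin.cases ?_ (fun i => ?_) i
    · exact hw
    · exact hxZ i

theorem grassmann_isVer0 [FiniteDimensional F V] (h2 : (2 : F) ≠ 0) {q : QuadraticForm F V}
    (hq : NonSing q) {m : ℕ} (hd : finrank F V = 2 * (m + 1) + 1)
    (hW : HasWittIndex q (m + 1)) :
    IsVer0 (dualPolarLines q (m + 1)) (grassmann q (m + 1)) := by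
  classical
  have hpt : ∀ Z : Pt q (m + 1), ∃ v : Fin (m + 1) → V, LinearIndependent F v ∧
      Submodule.span F (Set.range v) = Z.1 ∧
      grassmann q (m + 1) Z = Submodule.span F {exteriorPower.ιMulti F (m + 1) v} := by
    intro Z
    obtain ⟨v, hv, hvm, hvZ⟩ := exists_basis Z.2.2
    exact ⟨v, hv, hvZ, grassmann_eq Z hv hvm⟩
  refine ⟨?_, ?_, ?_, ?_⟩
  · intro Z
    obtain ⟨v, hv, _, hg⟩ := hpt Z
    rw [hg, finrank_span_singleton (iota_ne_zero hv)]
  · intro Z Z' h
    obtain ⟨v, hv, hvZ, hg⟩ := hpt Z
    obtain ⟨v', hv', hvZ', hg'⟩ := hpt Z'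
    rw [hg, hg'] at h
    have h1 : exteriorPower.ιMulti F (m + 1) v ∈ Submodule.span F {exteriorPower.ιMulti F (m + 1) v'} := by
      rw [← h]
      exact Submodule.mem_span_singleton_self _
    obtain ⟨c, hc⟩ := Submodule.mem_span_singleton.mp h1
    have hc0 : c ≠ 0 := by
      rintro rfl
      rw [zero_smul] at hc
      exact iota_ne_zero hv hc.symm
    have h3 : (1 : F) • exteriorPower.ιMulti F (m + 1) v = c • exteriorPower.ιMulti F (m + 1) v' := by
      rw [one_smul, hc]
    apply Subtype.ext
    rw [← hvZ, ← hvZ']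
    exact le_antisymm (span_le_of_smul hv' hc0 h3) (span_le_of_smul hv one_ne_zero h3.symm)
  · rintro l ⟨X, hX, hXm, rfl⟩
    have hXm' : finrank F X = m := by omega
    obtain ⟨x, y, y', z, hx, hxm, hxX, hqz, hqy, hqy', hyy', hyz, hy'z, hXy, hXy', hXz, hexp⟩ :=
      line_data h2 hq hd hW hX hXm'
    set c := q z with hc
    have hXself : ∀ i j, q.polarBilin (x i) (x j) = 0 := fun i j => hX.polar_eq (hxm i) (hxm j)
    have hwq : ∀ α β γ : F, q (α • y + β • z + γ • y') = α * γ + β ^ 2 * c := by
      intro α β γ
      rw [q_add, q_add, q_smul, q_smul, q_smul, hqy, hqy']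
      simp only [map_add, map_smul, LinearMap.add_apply, LinearMap.smul_apply, smul_eq_mul]
      rw [hyy', hyz, polarB_symm q z y', hy'z]
      ring
    have hXw : ∀ α β γ : F, ∀ u ∈ X, q.polarBilin u (α • y + β • z + γ • y') = 0 := by
      intro α β γ u hu
      simp only [map_add, map_smul, hXy u hu, hXz u hu, hXy' u hu, smul_zero, add_zero]
    -- membership in `X`
    have hmemX : ∀ α β γ : F, α • y + β • z + γ • y' ∈ X → α = 0 ∧ β = 0 ∧ γ = 0 := by
      intro α β γ h
      have hyw := hXy _ h
      have hy'w := hXy' _ h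
      have hzw := hXz _ h
      simp only [map_add, map_smul, LinearMap.add_apply, LinearMap.smul_apply, smul_eq_mul] at hyw hy'w hzw
      rw [polarB_self, hqy, polarB_symm q z y, hyz, polarB_symm q y' y, hyy'] at hyw
      rw [hyy', polarB_symm q z y', hy'z, polarB_self, hqy'] at hy'w
      rw [hyz, hy'z, polarB_self] at hzw
      refine ⟨?_, ?_, ?_⟩
      · simpa using hy'w
      · have : β * (2 * c) = 0 := by simpa using hzw
        exact (mul_eq_zero.mp this).resolve_right (mul_ne_zero h2 hqz)
      · simpa using hyw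
    refine ⟨wedgeL (F := F) x y, wedgeL (F := F) x z, wedgeL (F := F) x (-c • y'), ?_, ?_⟩
    · rw [Fintype.linearIndependent_iff]
      intro g hg
      rw [Fin.sum_univ_three] at hg
      simp only [Matrix.cons_val_zero, Matrix.cons_val_one, Matrix.cons_val] at hg
      rw [← map_smul, ← map_smul, ← map_smul, ← map_add, ← map_add, wedgeL_eq_zero hx, hxX,
        smul_smul] at hg
      obtain ⟨h0, h1, h3⟩ := hmemX _ _ _ hg
      have h4 : g 2 = 0 := (mul_eq_zero.mp h3).resolve_right (neg_ne_zero.mpr hqz)
      intro i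
      fin_cases i
      · exact h0
      · exact h1
      · exact h4
    · ext Q
      have hlin : ∀ s t : F, s ^ 2 • wedgeL (F := F) x y + (s * t) • wedgeL (F := F) x z +
          t ^ 2 • wedgeL (F := F) x (-c • y') =
          wedgeL (F := F) x (s ^ 2 • y + (s * t) • z + (-(t ^ 2 * c)) • y') := by
        intro s t
        rw [map_add, map_add, map_smul, map_smul, map_smul, map_smul, smul_smul]
        congr 2
        ring
      constructor
      · rintro ⟨Z, ⟨hXZ, hZp⟩, rfl⟩
        obtain ⟨w, hwZ, hwX⟩ : ∃ w ∈ Z.1, w ∉ X := by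
          by_contra hcon
          push Not at hcon
          have := Submodule.finrank_mono (show Z.1 ≤ X from hcon)
          rw [Z.2.2] at this
          omega
        obtain ⟨u, hu, hwu⟩ := hexp w (hZp hwZ)
        set α := q.polarBilin y' w
        set γ := q.polarBilin y w
        set β := q.polarBilin z w / (2 * c)
        have hw' : α • y + β • z + γ • y' ∈ Z.1 := by
          have h1 : α • y + β • z + γ • y' = w - u := by
            rw [hwu]
            abel
          rw [h1]
          exact Z.1.sub_mem hwZ (hXZ hu)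
        have hw'X : α • y + β • z + γ • y' ∉ X := by
          intro h
          apply hwX
          have h1 : w = u + (α • y + β • z + γ • y') := by
            conv_lhs => rw [hwu]
            abel
          rw [h1]
          exact X.add_mem hu h
        have hq0 : α * γ + β ^ 2 * c = 0 := by
          rw [← hwq]
          exact Z.2.1 _ hw'
        have hgr := grassmann_line Z hx (fun i => hXZ (hxm i)) hw' (by rw [hxX]; exact hw'X)
        rw [hgr]
        by_cases hα : α = 0
        · have hβ : β = 0 := by
            rw [hα, zero_mul, zero_add] at hq0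
            exact pow_eq_zero_iff (two_ne_zero) |>.mp ((mul_eq_zero.mp hq0).resolve_right hqz)
          have hγ : γ ≠ 0 := by
            intro hγ
            apply hw'X
            rw [hα, hβ, hγ]
            simp
          refine ⟨0, 1, Or.inr one_ne_zero, ?_⟩
          rw [hlin, hα, hβ]
          have h1 : (0 : F) ^ 2 • y + ((0 : F) * 1) • z + (-((1 : F) ^ 2 * c)) • y' =
              (-c / γ) • ((0 : F) • y + (0 : F) • z + γ • y') := by
            simp only [zero_smul, zero_add, smul_smul, zero_mul, ne_eq, OfNat.ofNat_ne_zero,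
              not_false_eq_true, zero_pow, one_pow, one_mul]
            rw [div_mul_cancel₀ _ hγ]
          rw [h1, map_smul, Submodule.span_singleton_smul_eq]
          exact (isUnit_iff_ne_zero.mpr (div_ne_zero (neg_ne_zero.mpr hqz) hγ))
        · refine ⟨α, β, Or.inl hα, ?_⟩
          rw [hlin]
          have h1 : α ^ 2 • y + (α * β) • z + (-(β ^ 2 * c)) • y' =
              α • (α • y + β • z + γ • y') := by
            simp only [smul_add, smul_smul]
            have h3 : -(β ^ 2 * c) = α * γ := by linear_combination -hq0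
            rw [h3, pow_two]
          rw [h1, map_smul, Submodule.span_singleton_smul_eq]
          exact isUnit_iff_ne_zero.mpr hα
      · rintro ⟨s, t, hst, rfl⟩
        rw [hlin]
        set w := s ^ 2 • y + (s * t) • z + (-(t ^ 2 * c)) • y' with hw
        have hqw : q w = 0 := by
          rw [hw, hwq]
          ring
        have hwX : w ∉ X := by
          intro h
          obtain ⟨h0, _, h3⟩ := hmemX _ _ _ h
          rcases hst with hs | ht
          · exact hs (pow_eq_zero_iff (two_ne_zero) |>.mp h0)
          · apply ht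
            have h4 : t ^ 2 * c = 0 := by simpa using h3
            exact pow_eq_zero_iff (two_ne_zero) |>.mp ((mul_eq_zero.mp h4).resolve_right hqz)
        have hli : LinearIndependent F (Fin.cons w x : Fin (m + 1) → V) := by
          rw [linearIndependent_finCons]
          exact ⟨hx, by rw [hxX]; exact hwX⟩
        have hts : TotSing q (Submodule.span F (Set.range (Fin.cons w x : Fin (m + 1) → V))) := by
          apply totSing_span
          · intro i
            refine Fin.cases ?_ (fun i => ?_) i
            · exact hqw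
            · exact hX _ (hxm i)
          · intro i j
            refine Fin.cases ?_ (fun i => ?_) i <;> refine Fin.cases ?_ (fun j => ?_) j
            · rw [Fin.cons_zero, polarB_self, hqw, mul_zero]
            · rw [Fin.cons_zero, Fin.cons_succ, polarB_symm]
              exact hXw _ _ _ _ (hxm j)
            · rw [Fin.cons_zero, Fin.cons_succ]
              exact hXw _ _ _ _ (hxm i)
            · rw [Fin.cons_succ, Fin.cons_succ]
              exact hXself i j
        have hfr : finrank F (Submodule.span F (Set.range (Fin.cons w x : Fin (m + 1) → V))) =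
            m + 1 := by
          rw [finrank_span_eq_card hli, Fintype.card_fin]
        let Z : Pt q (m + 1) := ⟨_, hts, hfr⟩
        have hXZ : X ≤ Z.1 := by
          rw [← hxX]
          apply Submodule.span_mono
          rintro _ ⟨i, rfl⟩
          exact ⟨i.succ, by simp⟩
        refine ⟨Z, ⟨hXZ, hts.le_perp hXZ⟩, ?_⟩
        apply grassmann_line Z hx (fun i => hXZ (hxm i)) _ (by rw [hxX]; exact hwX)
        exact Submodule.subset_span ⟨0, by simp⟩
  · rintro l ⟨X, hX, hXm, rfl⟩ Z hZ
    have hXm' : finrank F X = m := by omega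
    obtain ⟨x, hx, hxm, hxX⟩ := exists_basis hXm'
    obtain ⟨v, hv, hvZ, hg⟩ := hpt Z
    rw [Submodule.eq_bot_iff]
    rintro y ⟨hy, hy'⟩
    have hle : (⨆ r ∈ {Z : Pt q (m + 1) | X ≤ Z.1 ∧ Z.1 ≤ perp q X}, grassmann q (m + 1) r) ≤
        LinearMap.range (wedgeL (F := F) x) := by
      apply iSup_le
      intro r
      apply iSup_le
      rintro ⟨hXr, _⟩
      obtain ⟨w, hwr, hwX⟩ : ∃ w ∈ r.1, w ∉ X := by
        by_contra hcon
        push Not at hcon
        have := Submodule.finrank_mono (show r.1 ≤ X from hcon)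
        rw [r.2.2] at this
        omega
      rw [grassmann_line r hx (fun i => hXr (hxm i)) hwr (by rw [hxX]; exact hwX),
        Submodule.span_singleton_le_iff_mem]
      exact ⟨w, rfl⟩
    obtain ⟨w, hw⟩ := hle hy'
    rw [hg] at hy
    obtain ⟨c, hc⟩ := Submodule.mem_span_singleton.mp hy
    by_contra hy0
    have hc0 : c ≠ 0 := by
      rintro rfl
      rw [zero_smul] at hc
      exact hy0 hc.symm
    have hwX : w ∉ Submodule.span F (Set.range x) := by
      intro h
      rw [← wedgeL_eq_zero hx, hw] at h
      exact hy0 h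
    apply hZ
    have h1 : (1 : F) • exteriorPower.ιMulti F (m + 1) (Matrix.vecCons w x) =
        c • exteriorPower.ιMulti F (m + 1) v := by
      rw [one_smul, hc, ← hw, wedgeL_apply]
    have h3 := span_le_of_smul hv hc0 h1
    have hXZ : X ≤ Z.1 := by
      rw [← hvZ, ← hxX]
      refine le_trans (Submodule.span_mono ?_) h3
      rintro _ ⟨i, rfl⟩
      exact ⟨i.succ, by simp⟩
    exact ⟨hXZ, Z.2.1.le_perp hXZ⟩

end Pool.Agent.Helper10.Ver
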