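import Pool.Agent.Helper10.Ver.Form

/-!
The Grassmann embedding is not relatively universal over fields with a nonzero derivation.
-/

set_option autoImplicit false

namespace Pool.Agent.Helper10.Ver

open Module QuadraticMap

variable {F : Type} [Field F] {V : Type} [AddCommGroup V] [Module F V]

/-- A connection in a Witt basis. -/
lemma exists_conn (h2 : (2 : F) ≠ 0) {q : QuadraticForm F V} (D : Derivation ℤ F F) {n : ℕ}
    {e f : Fin n → V} {z : V} (hqz : q z ≠ 0)
    (hee : ∀ i j, q.polarBilin (e i) (e j) = 0)
    (hef : ∀ i j, q.polarBilin (e i) (f j) = if i = j then 1 else 0)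
    (hff : ∀ i j, q.polarBilin (f i) (f j) = 0)
    (hez : ∀ i, q.polarBilin (e i) z = 0) (hfz : ∀ i, q.polarBilin (f i) z = 0)
    (hexp : ∀ v, v = ∑ i, q.polarBilin (f i) v • e i + ∑ i, q.polarBilin (e i) v • f i +
        (q.polarBilin z v / (2 * q z)) • z) :
    ∃ N : Conn q D, (∀ i, N.nab (e i) = 0) ∧ ∀ i, N.nab (f i) = 0 := by
  classical
  set c := q z with hc
  have h2c : 2 * c ≠ 0 := mul_ne_zero h2 hqz
  let κ : V → F := fun v => q.polarBilin z v / (2 * c)
  have hκ : ∀ v, q.polarBilin z v = 2 * c * κ v := by
    intro v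
    simp only [κ]
    field_simp
  have hκadd : ∀ u v, κ (u + v) = κ u + κ v := by
    intro u v
    simp only [κ, map_add]
    ring
  have hκsmul : ∀ (a : F) u, κ (a • u) = a * κ u := by
    intro a u
    simp only [κ, map_smul, smul_eq_mul]
    ring
  have hfe : ∀ i j, q.polarBilin (f i) (e j) = if i = j then 1 else 0 := by
    intro i j
    rw [polarB_symm, hef]
    simp only [eq_comm]
  have hze : ∀ i, q.polarBilin z (e i) = 0 := fun i => by rw [polarB_symm, hez]
  have hzf : ∀ i, q.polarBilin z (f i) = 0 := fun i => by rw [polarB_symm, hfz]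
  let nab : V → V := fun v => ∑ i, D (q.polarBilin (f i) v) • e i +
    ∑ i, D (q.polarBilin (e i) v) • f i + (D (κ v) + κ v * D c / (2 * c)) • z
  have hD2 : D 2 = 0 := by
    have h := D.map_natCast 2
    simpa using h
  have hB : ∀ u v, q.polarBilin u v = ∑ i, q.polarBilin (f i) u * q.polarBilin (e i) v +
      ∑ i, q.polarBilin (e i) u * q.polarBilin (f i) v + 2 * c * (κ u * κ v) := by
    intro u v
    conv_lhs => rw [hexp u]
    simp only [map_add, map_sum, map_smul, LinearMap.add_apply, LinearMap.sum_apply,
      LinearMap.smul_apply, smul_eq_mul]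
    rw [hκ v]
    change _ + _ + κ u * _ = _
    ring
  have hBn : ∀ u v, q.polarBilin (nab u) v = ∑ i, D (q.polarBilin (f i) u) * q.polarBilin (e i) v +
      ∑ i, D (q.polarBilin (e i) u) * q.polarBilin (f i) v +
      (2 * c * D (κ u) * κ v + D c * κ u * κ v) := by
    intro u v
    simp only [nab, map_add, map_sum, map_smul, LinearMap.add_apply, LinearMap.sum_apply,
      LinearMap.smul_apply, smul_eq_mul]
    rw [hκ v]
    congr 1
    field_simp
  let N : Conn q D :=
    { nab := nab
      add := by
        intro u v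
        simp only [nab, map_add, hκadd, add_smul, Finset.sum_add_distrib, add_mul, add_div]
        abel
      smul := by
        intro a u
        have h1 : D a • u = ∑ i, (D a * q.polarBilin (f i) u) • e i +
            ∑ i, (D a * q.polarBilin (e i) u) • f i + (D a * κ u) • z := by
          conv_lhs => rw [hexp u]
          simp only [smul_add, Finset.smul_sum, smul_smul]
          rfl
        rw [h1]
        simp only [nab, map_smul, hκsmul, smul_add, Finset.smul_sum, smul_smul, smul_eq_mul,
          Derivation.leibniz]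
        have h3 : ∀ g : Fin n → V, ∑ i, (a * D (q.polarBilin (g i) u) +
            q.polarBilin (g i) u * D a) • (if True then g i else g i) =
            ∑ i, (a * D (q.polarBilin (g i) u)) • g i + ∑ i, (D a * q.polarBilin (g i) u) • g i := by
          intro g
          rw [← Finset.sum_add_distrib]
          apply Finset.sum_congr rfl
          intro i _
          rw [if_pos trivial, ← add_smul]
          congr 1
          ring
        have h4 : ∀ g h : Fin n → V, ∑ i, (a * D (q.polarBilin (g i) u) +
            q.polarBilin (g i) u * D a) • h i =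
            ∑ i, (a * D (q.polarBilin (g i) u)) • h i + ∑ i, (D a * q.polarBilin (g i) u) • h i := by
          intro g h
          rw [← Finset.sum_add_distrib]
          apply Finset.sum_congr rfl
          intro i _
          rw [← add_smul]
          congr 1
          ring
        rw [h4, h4]
        have h5 : (a * D (κ u) + κ u * D a + a * κ u * D c / (2 * c)) • z =
            (a * (D (κ u) + κ u * D c / (2 * c))) • z + (D a * κ u) • z := by
          rw [← add_smul]
          congr 1
          ring
        rw [h5]
        abel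
      metric := by
        intro u v
        rw [polarB_symm q u (nab v), hBn, hBn, hB]
        simp only [map_add, map_sum, Derivation.leibniz, smul_eq_mul, hD2]
        have h6 : ∀ g h : Fin n → V, ∑ i, (q.polarBilin (g i) u * D (q.polarBilin (h i) v) +
            q.polarBilin (h i) v * D (q.polarBilin (g i) u)) =
            ∑ i, D (q.polarBilin (g i) u) * q.polarBilin (h i) v +
            ∑ i, D (q.polarBilin (h i) v) * q.polarBilin (g i) u := by
          intro g h
          rw [← Finset.sum_add_distrib]
          apply Finset.sum_congr rfl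
          intro i _
          ring
        rw [h6, h6]
        ring }
  refine ⟨N, ?_, ?_⟩
  · intro j
    change nab (e j) = 0
    simp only [nab, hfe, hee, κ, hze, zero_div, map_zero, zero_smul, Finset.sum_const_zero,
      zero_mul, add_zero]
    apply Finset.sum_eq_zero
    intro i _
    split_ifs
    · rw [Derivation.map_one_eq_zero, zero_smul]
    · rw [map_zero, zero_smul]
  · intro j
    change nab (f j) = 0
    simp only [nab, hff, hef, κ, hzf, zero_div, map_zero, zero_smul, Finset.sum_const_zero,
      zero_mul, add_zero, zero_add]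
    apply Finset.sum_eq_zero
    intro i _
    split_ifs
    · rw [Derivation.map_one_eq_zero, zero_smul]
    · rw [map_zero, zero_smul]

lemma li_of_dual {q : QuadraticForm F V} {n : ℕ} {v g : Fin n → V}
    (h : ∀ i j, q.polarBilin (g i) (v j) = if i = j then 1 else 0) : LinearIndependent F v := by
  rw [Fintype.linearIndependent_iff]
  intro a ha i
  have h1 := congrArg (q.polarBilin (g i)) ha
  simp only [map_sum, map_smul, h, smul_eq_mul, mul_ite, mul_one, mul_zero, Finset.sum_ite_eq,
    Finset.mem_univ, if_true, map_zero] at h1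
  exact h1

theorem not_relativelyUniversal (h2 : (2 : F) ≠ 0) (D : Derivation ℤ F F) (hD : D ≠ 0)
    {q : QuadraticForm F V} (hq : NonSing q) {k : ℕ} (hd : finrank F V = 2 * (k + 2) + 1)
    (hW : HasWittIndex q (k + 2)) :
    ¬ RelativelyUniversal (dualPolarLines q (k + 2)) (grassmann q (k + 2)) := by
  classical
  have : FiniteDimensional F V := FiniteDimensional.of_finrank_pos (by omega)
  obtain ⟨Z0, hZ0, hZ0n⟩ := hW.1
  obtain ⟨e, he, hem, heZ⟩ := exists_basis hZ0n
  have hee : ∀ i j, q.polarBilin (e i) (e j) = 0 := fun i j => hZ0.polar_eq (hem i) (hem j)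
  obtain ⟨f, hef, hff⟩ := exists_hyp h2 hq he hee
  obtain ⟨z, hqz, hez, hfz, hexp⟩ := exists_aniso h2 hq hd hee hef hff
  obtain ⟨N, hNe, hNf⟩ := exists_conn h2 D hqz hee hef hff hez hfz hexp
  have hfe : ∀ i j, q.polarBilin (f i) (e j) = if i = j then 1 else 0 := by
    intro i j
    rw [polarB_symm, hef]
    simp only [eq_comm]
  have hqe : ∀ i, q (e i) = 0 := fun i => hZ0 _ (hem i)
  have hqf : ∀ i, q (f i) = 0 := by
    intro i
    have := polarB_self q (f i)
    rw [hff] at this
    exact (mul_eq_zero.mp this.symm).resolve_left h2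
  let μ : Fin k → V →ₗ[F] F := fun i => q.polarBilin (f i.succ.succ)
  choose Φ hΦ using fun Z : Pt q (k + 2) => N.exists_point μ Z.2.1
  have hver0 := grassmann_isVer0 h2 hq (m := k + 1) hd hW
  have hlift := isVer0_lift hver0 Φ (by
    rintro l ⟨X, hX, hXm, rfl⟩
    obtain ⟨Ψ, hΨ⟩ := N.exists_line h2 μ hX (k := k) (by omega)
    refine ⟨Ψ, ?_⟩
    rintro Z ⟨hXZ, _⟩ x hx
    rw [grassmann] at hx
    induction hx using Submodule.span_induction with
    | mem x hx =>
      obtain ⟨v, hv, rfl⟩ := hx
      rw [hΦ Z v hv, hΨ Z.1 Z.2.1 Z.2.2 hXZ v hv]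
    | zero => rw [map_zero, map_zero]
    | add a b _ _ ha hb => rw [map_add, map_add, ha, hb]
    | smul c a _ ha => rw [map_smul, map_smul, ha])
  have hver := isVeronesean_restrict hlift
  intro hRU
  set εt : Pt q (k + 2) → Submodule F ((⋀[F]^(k + 2) V) × F) :=
    fun p => (grassmann q (k + 2) p).map
      ((LinearMap.id : (⋀[F]^(k + 2) V) →ₗ[F] (⋀[F]^(k + 2) V)).prod (Φ p)) with hεt
  set S : Submodule F ((⋀[F]^(k + 2) V) × F) := ⨆ p, εt p with hS
  let fl : S →ₗ[F] ⋀[F]^(k + 2) V := (LinearMap.fst F _ F) ∘ₗ S.subtype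
  let fs : S →ₛₗ[((RingEquiv.refl F : F ≃+* F) : F →+* F)] ⋀[F]^(k + 2) V :=
    { toFun := fl
      map_add' := fl.map_add
      map_smul' := fl.map_smul }
  have hmor : ∀ p, grassmann q (k + 2) p = ((εt p).comap S.subtype).map fs := by
    intro p
    have hle : εt p ≤ S := le_iSup εt p
    ext x
    constructor
    · intro hx
      have h1 : (x, Φ p x) ∈ εt p := ⟨x, hx, rfl⟩
      exact ⟨⟨(x, Φ p x), hle h1⟩, h1, rfl⟩
    · rintro ⟨⟨y, hyS⟩, hy, rfl⟩
      obtain ⟨x, hx, hxy⟩ := hy
      change x ∈ _ at hx
      have h3 : y.1 = x := by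
        rw [Submodule.subtype_apply] at hxy
        exact (congrArg Prod.fst hxy).symm
      change y.1 ∈ _
      rw [h3]
      exact hx
  have hbij := hRU S _ hver (RingEquiv.refl F) fs hmor
  -- points and vectors in `S`
  let r : Fin k → V := fun i => e i.succ.succ
  let I : V → V → ⋀[F]^(k + 2) V := fun a b =>
    exteriorPower.ιMulti F (k + 2) (Matrix.vecCons a (Matrix.vecCons b r))
  have hI1 : ∀ a a' b, I (a + a') b = I a b + I a' b := fun a a' b =>
    (exteriorPower.ιMulti F (k + 2)).map_vecCons_add (Matrix.vecCons b r) a a'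
  have hI2 : ∀ (c : F) a b, I (c • a) b = c • I a b := fun c a b =>
    (exteriorPower.ιMulti F (k + 2)).map_vecCons_smul (Matrix.vecCons b r) c a
  have hI3 : ∀ a b b', I a (b + b') = I a b + I a b' := fun a b b' =>
    (((exteriorPower.ιMulti F (k + 2)).curryLeft) a).map_vecCons_add r b b'
  have hI4 : ∀ (c : F) a b, I a (c • b) = c • I a b := fun c a b =>
    (((exteriorPower.ιMulti F (k + 2)).curryLeft) a).map_vecCons_smul r c b
  have hmem : ∀ a b : V, ∀ g : Fin (k + 2) → V, q a = 0 → q b = 0 → q.polarBilin a b = 0 →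
      (∀ i, q.polarBilin a (r i) = 0) → (∀ i, q.polarBilin b (r i) = 0) →
      (∀ i, μ i a = 0) → (∀ i, μ i b = 0) →
      (∀ i j, q.polarBilin (g i) ((Matrix.vecCons a (Matrix.vecCons b r) : Fin (k + 2) → V) j) =
        if i = j then 1 else 0) →
      (I a b, q.polarBilin (N.nab a) b - q.polarBilin (N.nab b) a) ∈ S := by
    intro a b g hqa hqb hab har hbr hμa hμb hg
    set v : Fin (k + 2) → V := Matrix.vecCons a (Matrix.vecCons b r) with hv
    have hv0 : v 0 = a := rfl
    have hv1 : v 1 = b := rfl
    have hvs : ∀ i : Fin k, v i.succ.succ = r i := fun i => rfl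
    have hli : LinearIndependent F v := li_of_dual hg
    have hcases : ∀ P : Fin (k + 2) → Prop, P 0 → P 1 → (∀ i : Fin k, P i.succ.succ) → ∀ j, P j := by
      intro P h0 h1 hs j
      refine Fin.cases h0 (fun j => ?_) j
      refine Fin.cases h1 (fun j => ?_) j
      exact hs j
    have hts : TotSing q (Submodule.span F (Set.range v)) := by
      apply totSing_span
      · refine hcases _ ?_ ?_ ?_
        · exact hqa
        · exact hqb
        · intro i
          exact hqe _
      · refine hcases _ ?_ ?_ ?_
        · refine hcases _ ?_ ?_ ?_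
          · rw [hv0, polarB_self, hqa, mul_zero]
          · exact hab
          · exact har
        · refine hcases _ ?_ ?_ ?_
          · rw [hv0, hv1, polarB_symm]
            exact hab
          · rw [hv1, polarB_self, hqb, mul_zero]
          · exact hbr
        · intro i
          refine hcases _ ?_ ?_ ?_
          · rw [hv0, polarB_symm]
            exact har i
          · rw [hv1, polarB_symm]
            exact hbr i
          · intro j
            exact hee _ _
    let Z : Pt q (k + 2) := ⟨Submodule.span F (Set.range v), hts, by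
      rw [finrank_span_eq_card hli, Fintype.card_fin]⟩
    have hvZ : ∀ i, v i ∈ Z.1 := fun i => Submodule.subset_span ⟨i, rfl⟩
    have hg1 : exteriorPower.ιMulti F (k + 2) v ∈ grassmann q (k + 2) Z :=
      Submodule.subset_span ⟨v, hvZ, rfl⟩
    have h3 : Φ Z (exteriorPower.ιMulti F (k + 2) v) =
        q.polarBilin (N.nab a) b - q.polarBilin (N.nab b) a := by
      have hP : ∀ i j, μ i (v j) = if j = i.succ.succ then 1 else 0 := by
        intro i
        refine hcases _ ?_ ?_ ?_
        · rw [hv0, hμa, if_neg]
          exact (Fin.succ_ne_zero _).symm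
        · rw [hv1, hμb, if_neg]
          intro h
          rw [← Fin.succ_zero_eq_one, Fin.succ_inj] at h
          exact Fin.succ_ne_zero _ h.symm
        · intro j
          change q.polarBilin (f i.succ.succ) (e j.succ.succ) = _
          rw [hfe]
          simp only [Fin.succ_inj, eq_comm]
      rw [hΦ Z v hvZ, N.Psi_eval hP, hv0, hv1]
    have h4 : (exteriorPower.ιMulti F (k + 2) v, Φ Z (exteriorPower.ιMulti F (k + 2) v)) ∈ εt Z :=
      ⟨_, hg1, rfl⟩
    rw [h3] at h4
    exact (le_iSup εt Z) h4
  have h10 : (1 : Fin (k + 2)) ≠ 0 := by simp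
  have hs0 : ∀ i : Fin k, (0 : Fin (k + 2)) ≠ i.succ.succ := fun i => (Fin.succ_ne_zero _).symm
  have hs1 : ∀ i : Fin k, (1 : Fin (k + 2)) ≠ i.succ.succ := by
    intro i h
    rw [← Fin.succ_zero_eq_one, Fin.succ_inj] at h
    exact Fin.succ_ne_zero _ h.symm
  have hA : ∀ t : F, (I (e 0 + t • f 1) (e 1 + (-t) • f 0), 2 * D t) ∈ S := by
    intro t
    have hval : q.polarBilin (N.nab (e 0 + t • f 1)) (e 1 + (-t) • f 0) -
        q.polarBilin (N.nab (e 1 + (-t) • f 0)) (e 0 + t • f 1) = 2 * D t := by
      rw [N.add, N.add, N.smul, N.smul, hNe, hNe, hNf, hNf]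
      simp only [smul_zero, zero_add, map_add, map_smul, LinearMap.smul_apply, hfe, hff,
        smul_eq_mul, map_neg]
      simp only [if_true, mul_zero, add_zero, mul_one]
      ring
    rw [← hval]
    apply hmem _ _ f
    · rw [q_add, q_smul, hqe, hqf, map_smul, hef, if_neg h10.symm]
      simp
    · rw [q_add, q_smul, hqe, hqf, map_smul, hef, if_neg h10]
      simp
    · simp only [map_add, map_smul, LinearMap.add_apply, LinearMap.smul_apply, hee, hef, hfe, hff,
        smul_eq_mul, if_true]
      ring
    · intro i
      simp only [map_add, map_smul, LinearMap.add_apply, LinearMap.smul_apply, r, hee, hfe,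
        smul_eq_mul, if_neg (hs1 i)]
      ring
    · intro i
      simp only [map_add, map_smul, LinearMap.add_apply, LinearMap.smul_apply, r, hee, hfe,
        smul_eq_mul, if_neg (hs0 i)]
      ring
    · intro i
      simp only [μ, map_add, map_smul, hff, hfe, smul_eq_mul, if_neg (hs0 i).symm]
      ring
    · intro i
      simp only [μ, map_add, map_smul, hff, hfe, smul_eq_mul, if_neg (hs1 i).symm]
      ring
    · intro i j
      refine Fin.cases ?_ (fun j => ?_) j
      · change q.polarBilin (f i) (e 0 + t • f 1) = _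
        simp only [map_add, map_smul, hff, hfe, smul_zero, add_zero]
      · refine Fin.cases ?_ (fun j => ?_) j
        · change q.polarBilin (f i) (e 1 + (-t) • f 0) = _
          simp only [map_add, map_smul, hff, hfe, smul_zero, add_zero]
          rfl
        · change q.polarBilin (f i) (e j.succ.succ) = _
          rw [hfe]
  have hB : (I (f 1) (f 0), (0 : F)) ∈ S := by
    have hval : q.polarBilin (N.nab (f 1)) (f 0) - q.polarBilin (N.nab (f 0)) (f 1) = 0 := by
      rw [hNf, hNf, map_zero, LinearMap.zero_apply, LinearMap.zero_apply, sub_zero]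
    rw [← hval]
    apply hmem _ _ (Matrix.vecCons (e 1) (Matrix.vecCons (e 0) (fun i : Fin k => f i.succ.succ)))
    · exact hqf _
    · exact hqf _
    · exact hff _ _
    · intro i
      simp only [r, hfe, if_neg (hs1 i)]
    · intro i
      simp only [r, hfe, if_neg (hs0 i)]
    · intro i
      exact hff _ _
    · intro i
      exact hff _ _
    · intro i j
      refine Fin.cases ?_ (fun i => ?_) i
      · refine Fin.cases ?_ (fun j => ?_) j
        · change q.polarBilin (e 1) (f 1) = _
          rw [hef, if_pos rfl, if_pos rfl]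
        · refine Fin.cases ?_ (fun j => ?_) j
          · change q.polarBilin (e 1) (f 0) = _
            rw [hef, if_neg h10]
            simp
          · change q.polarBilin (e 1) (e j.succ.succ) = _
            rw [hee, if_neg (Fin.succ_ne_zero _).symm]
      · refine Fin.cases ?_ (fun i => ?_) i
        · refine Fin.cases ?_ (fun j => ?_) j
          · change q.polarBilin (e 0) (f 1) = _
            rw [hef, if_neg h10.symm]
            simp
          · refine Fin.cases ?_ (fun j => ?_) j
            · change q.polarBilin (e 0) (f 0) = _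
              rw [hef, if_pos rfl, if_pos rfl]
            · change q.polarBilin (e 0) (e j.succ.succ) = _
              rw [hee, if_neg (by rw [Fin.succ_inj]; exact (Fin.succ_ne_zero _).symm)]
        · refine Fin.cases ?_ (fun j => ?_) j
          · change q.polarBilin (f i.succ.succ) (f 1) = _
            rw [hff, if_neg (Fin.succ_ne_zero _)]
          · refine Fin.cases ?_ (fun j => ?_) j
            · change q.polarBilin (f i.succ.succ) (f 0) = _
              rw [hff, if_neg (by rw [Fin.succ_inj]; exact (Fin.succ_ne_zero _))]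
            · change q.polarBilin (f i.succ.succ) (e j.succ.succ) = _
              rw [hfe]
  have hexpand : ∀ t : F, I (e 0 + t • f 1) (e 1 + (-t) • f 0) =
      I (e 0) (e 1) + t • (I (f 1) (e 1) - I (e 0) (f 0)) - (t ^ 2) • I (f 1) (f 0) := by
    intro t
    rw [hI1, hI3, hI3, hI2, hI2, hI4, hI4]
    module
  obtain ⟨t, ht⟩ : ∃ t, D t ≠ 0 := by
    by_contra hcon
    push Not at hcon
    exact hD (Derivation.ext hcon)
  have hS0 : (I (e 0) (e 1), (0 : F)) ∈ S := by
    have := hA 0
    rw [hexpand] at this
    simpa using this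
  have hS1 : (I (f 1) (e 1) - I (e 0) (f 0), (0 : F)) ∈ S := by
    have h1 := hA 1
    rw [hexpand, Derivation.map_one_eq_zero, mul_zero, one_smul, one_pow, one_smul] at h1
    have h3 := S.add_mem (S.sub_mem h1 hS0) hB
    simp only [Prod.mk_sub_mk, Prod.mk_add_mk, sub_zero, add_zero] at h3
    have h4 : I (e 0) (e 1) + (I (f 1) (e 1) - I (e 0) (f 0)) - I (f 1) (f 0) - I (e 0) (e 1) +
        I (f 1) (f 0) = I (f 1) (e 1) - I (e 0) (f 0) := by abel
    rwa [h4] at h3
  have hS2 : ((0 : ⋀[F]^(k + 2) V), 2 * D t) ∈ S := by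
    have h1 := hA t
    rw [hexpand] at h1
    have h3 := S.add_mem (S.sub_mem (S.sub_mem h1 hS0) (S.smul_mem t hS1)) (S.smul_mem (t ^ 2) hB)
    simp only [Prod.smul_mk, smul_zero, Prod.mk_sub_mk, Prod.mk_add_mk, sub_zero, add_zero] at h3
    have h4 : I (e 0) (e 1) + t • (I (f 1) (e 1) - I (e 0) (f 0)) - t ^ 2 • I (f 1) (f 0) -
        I (e 0) (e 1) - t • (I (f 1) (e 1) - I (e 0) (f 0)) + t ^ 2 • I (f 1) (f 0) = 0 := by abel
    rwa [h4] at h3
  have h5 : fs ⟨_, hS2⟩ = fs 0 := by
    rw [map_zero]
    rfl
  have h6 := hbij.1 h5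
  have h7 := congrArg (fun x : S => (x : (⋀[F]^(k + 2) V) × F).2) h6
  simp only [Submodule.coe_zero, Prod.snd_zero] at h7
  exact (mul_ne_zero h2 ht) h7

end Pool.Agent.Helper10.Ver
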