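import Pool.Agent.Helper10.Ver.Main

/-!
Existence: the standard quadratic form, and a nonzero derivation of `ℚ(t)`.
-/

set_option autoImplicit false

namespace Pool.Agent.Helper10.Ver

open Module QuadraticMap

section Bound

variable {F : Type} [Field F] {V : Type} [AddCommGroup V] [Module F V]

lemma finrank_le_of_totSing [FiniteDimensional F V] (h2 : (2 : F) ≠ 0) {q : QuadraticForm F V}
    (hq : NonSing q) {n : ℕ} (hd : finrank F V = 2 * n + 1) {Z : Submodule F V}
    (hZ : TotSing q Z) : finrank F Z ≤ n := by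
  classical
  obtain ⟨e, he, hem, _⟩ := exists_basis (Z := Z) rfl
  have hee : ∀ i j, q.polarBilin (e i) (e j) = 0 := fun i j => hZ.polar_eq (hem i) (hem j)
  obtain ⟨f, hef, hff⟩ := exists_hyp h2 hq he hee
  have hfe : ∀ i j, q.polarBilin (f i) (e j) = if i = j then 1 else 0 := by
    intro i j
    rw [polarB_symm, hef]
    simp only [eq_comm]
  have hli : LinearIndependent F (Sum.elim e f) := by
    rw [Fintype.linearIndependent_iff]
    intro a ha
    rw [Fintype.sum_sum_type] at ha
    simp only [Sum.elim_inl, Sum.elim_inr] at ha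
    intro i
    rcases i with i | i
    · have h1 := congrArg (q.polarBilin (f i)) ha
      simp only [map_add, map_sum, map_smul, hfe, hff, smul_eq_mul, mul_ite, mul_one, mul_zero,
        Finset.sum_ite_eq, Finset.mem_univ, if_true, map_zero, Finset.sum_const_zero,
        add_zero] at h1
      exact h1
    · have h1 := congrArg (q.polarBilin (e i)) ha
      simp only [map_add, map_sum, map_smul, hef, hee, smul_eq_mul, mul_ite, mul_one, mul_zero,
        Finset.sum_ite_eq, Finset.mem_univ, if_true, map_zero, Finset.sum_const_zero,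
        zero_add] at h1
      exact h1
  have h3 := hli.fintype_card_le_finrank
  rw [Fintype.card_sum, Fintype.card_fin, hd] at h3
  omega

end Bound

section Standard

variable (F : Type) [Field F] (n : ℕ)

/-- The standard bilinear form `Σ a_i b'_i + c c'`. -/
noncomputable def stdBilin : LinearMap.BilinMap F ((Fin n → F) × (Fin n → F) × F) F :=
  LinearMap.mk₂ F (fun x y => ∑ i, x.1 i * y.2.1 i + x.2.2 * y.2.2)
    (by
      intro a b c
      simp only [Prod.fst_add, Prod.snd_add, Pi.add_apply, add_mul, Finset.sum_add_distrib]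
      ring)
    (by
      intro r a b
      simp only [Prod.smul_fst, Prod.smul_snd, Pi.smul_apply, smul_eq_mul, mul_add,
        Finset.mul_sum, mul_assoc])
    (by
      intro a b c
      simp only [Prod.fst_add, Prod.snd_add, Pi.add_apply, mul_add, Finset.sum_add_distrib]
      ring)
    (by
      intro r a b
      simp only [Prod.smul_snd, Prod.smul_fst, Pi.smul_apply, smul_eq_mul, mul_add,
        Finset.mul_sum]
      congr 1
      · apply Finset.sum_congr rfl
        intro i _
        ring
      · ring)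

/-- The standard form `Σ a_i b_i + c²` on `F^(2n+1)`. -/
noncomputable def stdForm : QuadraticForm F ((Fin n → F) × (Fin n → F) × F) :=
  LinearMap.BilinMap.toQuadraticMap (stdBilin F n)

lemma stdForm_apply (x : (Fin n → F) × (Fin n → F) × F) :
    stdForm F n x = ∑ i, x.1 i * x.2.1 i + x.2.2 * x.2.2 := rfl

lemma stdForm_polar (x y : (Fin n → F) × (Fin n → F) × F) :
    polar (stdForm F n) x y = ∑ i, x.1 i * y.2.1 i + ∑ i, y.1 i * x.2.1 i + 2 * (x.2.2 * y.2.2) := by
  rw [stdForm, LinearMap.BilinMap.polar_toQuadraticMap]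
  simp only [stdBilin, LinearMap.mk₂_apply]
  ring

lemma stdForm_nonSing (h2 : (2 : F) ≠ 0) : NonSing (stdForm F n) := by
  classical
  intro x hx
  have h1 : ∀ i, x.2.1 i = 0 := by
    intro i
    have := hx (Pi.single i 1, 0, 0)
    rw [stdForm_polar] at this
    simpa [Pi.single_apply] using this
  have h3 : ∀ i, x.1 i = 0 := by
    intro i
    have := hx (0, Pi.single i 1, 0)
    rw [stdForm_polar] at this
    simpa [Pi.single_apply] using this
  have h4 : x.2.2 = 0 := by
    have := hx (0, 0, 1)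
    rw [stdForm_polar] at this
    simp only [Pi.zero_apply, mul_zero, Finset.sum_const_zero, zero_mul, add_zero, zero_add,
      mul_one] at this
    exact (mul_eq_zero.mp this).resolve_left h2
  ext i
  · exact h3 i
  · exact h1 i
  · exact h4

lemma std_finrank : finrank F ((Fin n → F) × (Fin n → F) × F) = 2 * n + 1 := by
  simp only [finrank_prod, finrank_fintype_fun_eq_card, Fintype.card_fin, finrank_self]
  ring

lemma stdForm_witt (h2 : (2 : F) ≠ 0) : HasWittIndex (stdForm F n) n := by
  refine ⟨⟨LinearMap.range (LinearMap.inl F (Fin n → F) ((Fin n → F) × F)), ?_, ?_⟩, ?_⟩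
  · rintro _ ⟨x, rfl⟩
    rw [stdForm_apply]
    simp
  · rw [LinearMap.finrank_range_of_inj LinearMap.inl_injective, finrank_fintype_fun_eq_card,
      Fintype.card_fin]
  · intro Z hZ
    exact finrank_le_of_totSing h2 (stdForm_nonSing F n h2) (std_finrank F n) hZ

end Standard

section Der

open Polynomial

/-- The map `ℚ[X] → ℚ(X)[ε]`, `X ↦ X + ε`. -/
noncomputable def psiDual : ℚ[X] →+* TrivSqZeroExt (RatFunc ℚ) (RatFunc ℚ) :=
  Polynomial.eval₂RingHom
    ((TrivSqZeroExt.inlHom (RatFunc ℚ) (RatFunc ℚ)).comp (algebraMap ℚ (RatFunc ℚ)))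
    (TrivSqZeroExt.inl (algebraMap ℚ[X] (RatFunc ℚ) Polynomial.X) + TrivSqZeroExt.inr 1)

lemma fst_psiDual (p : ℚ[X]) : (psiDual p).fst = algebraMap ℚ[X] (RatFunc ℚ) p := by
  have h : ((TrivSqZeroExt.fstHom (RatFunc ℚ) (RatFunc ℚ) (RatFunc ℚ)).toRingHom.comp psiDual) =
      algebraMap ℚ[X] (RatFunc ℚ) := by
    apply Polynomial.ringHom_ext
    · intro a
      simp [psiDual]
    · simp [psiDual]
  exact congrArg (fun f => f p) h

/-- A lift `F → F[ε]` of the identity is a derivation. -/
lemma exists_der_aux {F : Type} [Field F] (φ : F →+* TrivSqZeroExt F F)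
    (hfst : ∀ x, (φ x).fst = x) {x : F} (hx : (φ x).snd ≠ 0) :
    ∃ D : Derivation ℤ F F, D ≠ 0 := by
  let D0 : F →ₗ[ℤ] F :=
    { toFun := fun x => (φ x).snd
      map_add' := by
        intro a b
        simp
      map_smul' := by
        intro m a
        change (φ (m • a)).snd = m • (φ a).snd
        rw [map_zsmul, TrivSqZeroExt.snd_smul] }
  let D : Derivation ℤ F F := Derivation.mk' D0 (by
    intro a b
    change (φ (a * b)).snd = a • (φ b).snd + b • (φ a).snd
    rw [map_mul, TrivSqZeroExt.snd_mul, hfst, hfst]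
    simp [mul_comm])
  refine ⟨D, ?_⟩
  intro h
  apply hx
  change D x = 0
  rw [h]
  rfl

lemma exists_lift : ∃ φ : RatFunc ℚ →+* TrivSqZeroExt (RatFunc ℚ) (RatFunc ℚ),
    (∀ x, (φ x).fst = x) ∧ ∃ x, (φ x).snd ≠ 0 := by
  have hunit : ∀ y : nonZeroDivisors ℚ[X], IsUnit (psiDual y) := by
    intro y
    rw [TrivSqZeroExt.isUnit_iff_isUnit_fst, fst_psiDual, isUnit_iff_ne_zero]
    intro h
    exact nonZeroDivisors.ne_zero y.2 ((IsFractionRing.injective ℚ[X] (RatFunc ℚ)) (by
      rw [h, map_zero]))
  let φ : RatFunc ℚ →+* TrivSqZeroExt (RatFunc ℚ) (RatFunc ℚ) := IsLocalization.lift hunit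
  have hφ : ∀ p : ℚ[X], φ (algebraMap ℚ[X] (RatFunc ℚ) p) = psiDual p := fun p =>
    IsLocalization.lift_eq hunit p
  refine ⟨φ, ?_, algebraMap ℚ[X] (RatFunc ℚ) Polynomial.X, ?_⟩
  · have h : ((TrivSqZeroExt.fstHom (RatFunc ℚ) (RatFunc ℚ) (RatFunc ℚ)).toRingHom.comp φ) =
        RingHom.id _ := by
      apply IsLocalization.ringHom_ext (nonZeroDivisors ℚ[X])
      refine RingHom.ext fun p => ?_
      change (φ (algebraMap ℚ[X] (RatFunc ℚ) p)).fst = algebraMap ℚ[X] (RatFunc ℚ) p
      rw [hφ, fst_psiDual]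
    intro x
    exact congrArg (fun f => f x) h
  · rw [hφ]
    simp [psiDual]

/-- The refutation over `ℚ(t)` with the standard form. -/
theorem ratFunc_counterexample (k : ℕ) :
    ¬ RelativelyUniversal (dualPolarLines (stdForm (RatFunc ℚ) (k + 2)) (k + 2))
      (grassmann (stdForm (RatFunc ℚ) (k + 2)) (k + 2)) := by
  obtain ⟨φ, hφ, x, hx⟩ := exists_lift
  obtain ⟨D, hD⟩ := exists_der_aux φ hφ hx
  have h2 : (2 : RatFunc ℚ) ≠ 0 := two_ne_zero
  exact not_relativelyUniversal h2 D hD (stdForm_nonSing _ _ h2) (std_finrank _ _)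
    (stdForm_witt _ _ h2)

end Der

end Pool.Agent.Helper10.Ver
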