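import Pool.Agent.Helper10.Ver.Witt

/-!
Decomposable vectors.
-/

set_option autoImplicit false

namespace Pool.Agent.Helper10.Ver

open Module

variable {F : Type} [Field F] {V : Type} [AddCommGroup V] [Module F V]

lemma iota_ne_zero {n : ℕ} {v : Fin n → V} (hv : LinearIndependent F v) :
    exteriorPower.ιMulti F n v ≠ 0 := by
  classical
  let S := Submodule.span F (Set.range v)
  let b : Basis (Fin n) F S := Basis.span hv
  obtain ⟨π, hπ⟩ := S.subtype.exists_leftInverse_of_injective S.ker_subtype
  let g : V [⋀^Fin n]→ₗ[F] F := b.det.compLinearMap π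
  have h1 : exteriorPower.alternatingMapLinearEquiv g (exteriorPower.ιMulti F n v) = 1 := by
    rw [exteriorPower.alternatingMapLinearEquiv_apply_ιMulti]
    change b.det (fun i => π (v i)) = 1
    have : (fun i => π (v i)) = b := by
      funext i
      have h3 : (b i : V) = v i := congrArg Subtype.val (Basis.span_apply hv i)
      have h4 := congrArg (fun φ => φ (b i)) hπ
      simp only [LinearMap.comp_apply, Submodule.subtype_apply, LinearMap.id_apply] at h4
      rw [← h4, h3]
    rw [this, b.det_self]
  intro h0
  rw [h0, map_zero] at h1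
  exact zero_ne_one h1

lemma mem_of_wedge_zero {n : ℕ} {v : Fin n → V} (hv : LinearIndependent F v) {x : V}
    (hx : ExteriorAlgebra.ι F x * ExteriorAlgebra.ιMulti F n v = 0) :
    x ∈ Submodule.span F (Set.range v) := by
  by_contra hn
  have hli : LinearIndependent F (Matrix.vecCons x v) := by
    rw [show Matrix.vecCons x v = Fin.cons x v from rfl, linearIndependent_finCons]
    exact ⟨hv, hn⟩
  have h1 := iota_ne_zero hli
  apply h1
  apply Subtype.ext
  rw [exteriorPower.ιMulti_apply_coe, ExteriorAlgebra.ιMulti_succ_apply]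
  simpa using hx

lemma wedge_zero_of_mem {n : ℕ} {v : Fin n → V} {x : V}
    (hx : x ∈ Submodule.span F (Set.range v)) :
    ExteriorAlgebra.ι F x * ExteriorAlgebra.ιMulti F n v = 0 := by
  induction hx using Submodule.span_induction with
  | mem x hx =>
    obtain ⟨i, rfl⟩ := hx
    have h1 := ExteriorAlgebra.ιMulti_succ_apply (R := F) (Matrix.vecCons (v i) v)
    simp only [Matrix.vecCons, Fin.cons_zero] at h1
    have h3 : Matrix.vecTail (Fin.cons (v i) v : Fin (n+1) → V) = v := by
      funext j
      simp [Matrix.vecTail]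
    rw [h3] at h1
    rw [← h1]
    apply ExteriorAlgebra.ιMulti_eq_zero_of_not_inj
    intro hinj
    have : (0 : Fin (n+1)) = i.succ := hinj (by simp)
    exact (Fin.succ_ne_zero i) this.symm
  | zero => simp
  | add x y _ _ hx hy => rw [map_add, add_mul, hx, hy, add_zero]
  | smul c x _ hx => rw [map_smul, smul_mul_assoc, hx, smul_zero]

/-- Proportional decomposable vectors have the same underlying subspace. -/
lemma span_le_of_smul {n : ℕ} {v v' : Fin n → V} (hv' : LinearIndependent F v')
    {c c' : F} (hc' : c' ≠ 0)
    (h : c • exteriorPower.ιMulti F n v = c' • exteriorPower.ιMulti F n v') :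
    Submodule.span F (Set.range v) ≤ Submodule.span F (Set.range v') := by
  intro x hx
  apply mem_of_wedge_zero hv'
  have h1 := congrArg (Subtype.val) h
  simp only [Submodule.coe_smul, exteriorPower.ιMulti_apply_coe] at h1
  have h3 := congrArg (fun y => ExteriorAlgebra.ι F x * y) h1
  simp only [mul_smul_comm, wedge_zero_of_mem hx, smul_zero] at h3
  exact (smul_eq_zero.mp h3.symm).resolve_left hc'

/-- Linear independent families spanning a subspace of the right dimension. -/
lemma span_eq_of_mem {n : ℕ} {Z : Submodule F V} [FiniteDimensional F Z] (hZ : finrank F Z = n)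
    {v : Fin n → V} (hv : LinearIndependent F v) (hm : ∀ i, v i ∈ Z) :
    Submodule.span F (Set.range v) = Z := by
  apply Submodule.eq_of_le_of_finrank_eq
  · rw [Submodule.span_le]
    rintro _ ⟨i, rfl⟩
    exact hm i
  · rw [finrank_span_eq_card hv, hZ, Fintype.card_fin]

lemma exists_basis {n : ℕ} {Z : Submodule F V} [FiniteDimensional F Z] (hZ : finrank F Z = n) :
    ∃ v : Fin n → V, LinearIndependent F v ∧ (∀ i, v i ∈ Z) ∧
      Submodule.span F (Set.range v) = Z := by
  let b := finBasisOfFinrankEq F Z hZ
  have h1 : LinearIndependent F (fun i => (b i : V)) :=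
    b.linearIndependent.map' Z.subtype Z.ker_subtype
  exact ⟨fun i => (b i : V), h1, fun i => (b i).2, span_eq_of_mem hZ h1 fun i => (b i).2⟩

/-- The set of all `v₁ ∧ … ∧ v_n`, `v_i ∈ Z`, spans a line, spanned by any non-zero one. -/
lemma grassmann_aux {n : ℕ} {Z : Submodule F V} [FiniteDimensional F Z] (hZ : finrank F Z = n)
    {v : Fin n → V} (hv : LinearIndependent F v) (hm : ∀ i, v i ∈ Z) :
    Submodule.span F {x | ∃ v : Fin n → V, (∀ i, v i ∈ Z) ∧ x = exteriorPower.ιMulti F n v} =
      Submodule.span F {exteriorPower.ιMulti F n v} := by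
  let m := exteriorPower.map n Z.subtype
  have hm1 : ∀ u : Fin n → V, (∀ i, u i ∈ Z) → exteriorPower.ιMulti F n u ∈ LinearMap.range m := by
    intro u hu
    refine ⟨exteriorPower.ιMulti F n (fun i => ⟨u i, hu i⟩), ?_⟩
    rw [exteriorPower.map_apply_ιMulti]
    rfl
  have hfr : finrank F (LinearMap.range m) = 1 := by
    rw [LinearMap.finrank_range_of_inj (exteriorPower.map_injective_field Z.injective_subtype),
      exteriorPower.finrank_eq, hZ, Nat.choose_self]
  have hle : Submodule.span F {exteriorPower.ιMulti F n v} = LinearMap.range m := by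
    apply Submodule.eq_of_le_of_finrank_eq
    · rw [Submodule.span_singleton_le_iff_mem]
      exact hm1 v hm
    · rw [hfr, finrank_span_singleton (iota_ne_zero hv)]
  apply le_antisymm
  · rw [Submodule.span_le]
    rintro _ ⟨u, hu, rfl⟩
    rw [hle]
    exact hm1 u hu
  · rw [Submodule.span_singleton_le_iff_mem]
    exact Submodule.subset_span ⟨v, hm, rfl⟩

end Pool.Agent.Helper10.Ver
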