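import Pool.Agent.Helper10.Ver.Defs

/-!
Witt bases adapted to a totally singular subspace.
-/

set_option autoImplicit false

namespace Pool.Agent.Helper10.Ver

open Module QuadraticMap

variable {F : Type} [Field F] {V : Type} [AddCommGroup V] [Module F V]

lemma polarB_symm (q : QuadraticForm F V) (x y : V) : q.polarBilin x y = q.polarBilin y x := by
  simp only [polarBilin_apply_apply]
  exact polar_comm q x y

lemma polarB_self (q : QuadraticForm F V) (x : V) : q.polarBilin x x = 2 * q x := by
  simp only [polarBilin_apply_apply, polar_self, nsmul_eq_mul, Nat.cast_ofNat]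

lemma q_add (q : QuadraticForm F V) (x y : V) : q (x + y) = q x + q y + q.polarBilin x y := by
  simp only [polarBilin_apply_apply, polar]
  ring

lemma q_smul (q : QuadraticForm F V) (c : F) (x : V) : q (c • x) = c ^ 2 * q x := by
  rw [QuadraticMap.map_smul, smul_eq_mul, pow_two]

/-- In characteristic not `2` the polar form vanishes on totally singular subspaces. -/
lemma TotSing.polar_eq {q : QuadraticForm F V} {Z : Submodule F V} (hZ : TotSing q Z) {x y : V}
    (hx : x ∈ Z) (hy : y ∈ Z) : q.polarBilin x y = 0 := by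
  have := q_add q x y
  rw [hZ _ (Z.add_mem hx hy), hZ _ hx, hZ _ hy] at this
  simpa using this.symm

lemma mem_perp {q : QuadraticForm F V} {X : Submodule F V} {v : V} :
    v ∈ perp q X ↔ ∀ x ∈ X, q.polarBilin x v = 0 := Iff.rfl

/-- Riesz representation. -/
lemma exists_repr [FiniteDimensional F V] {q : QuadraticForm F V} (hq : NonSing q)
    (φ : Dual F V) : ∃ v, ∀ x, q.polarBilin x v = φ x := by
  have hinj : Function.Injective (q.polarBilin : V →ₗ[F] Dual F V) := by
    rw [← LinearMap.ker_eq_bot, Submodule.eq_bot_iff]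
    intro x hx
    apply hq
    intro y
    rw [LinearMap.mem_ker] at hx
    have := congrArg (fun f => f y) hx
    simpa using this
  have hsurj := (LinearMap.injective_iff_surjective_of_finrank_eq_finrank
    (Subspace.dual_finrank_eq (K := F) (V := V)).symm).mp hinj
  obtain ⟨v, hv⟩ := hsurj φ
  exact ⟨v, fun x => by rw [polarB_symm, hv]⟩

lemma exists_dual_family [FiniteDimensional F V] {q : QuadraticForm F V} (hq : NonSing q)
    {k : ℕ} {e : Fin k → V} (he : LinearIndependent F e) (c : Fin k → F) :
    ∃ v, ∀ i, q.polarBilin (e i) v = c i := by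
  classical
  obtain ⟨φ, hφ⟩ : ∃ φ : Dual F V, ∀ i, φ (e i) = c i := by
    let f : Submodule.span F (Set.range e) →ₗ[F] F := (Basis.span he).constr F c
    obtain ⟨g, hg⟩ := f.exists_extend
    refine ⟨g, fun i => ?_⟩
    have h1 : g (e i) = (g ∘ₗ (Submodule.span F (Set.range e)).subtype) (Basis.span he i) := by
      simp [Basis.span_apply]
    rw [h1, hg, Basis.constr_basis]
  obtain ⟨v, hv⟩ := exists_repr hq φ
  exact ⟨v, fun i => by rw [hv, hφ]⟩

/-- A hyperbolic completion of a basis of a totally singular subspace. -/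
lemma exists_hyp [FiniteDimensional F V] (h2 : (2 : F) ≠ 0) {q : QuadraticForm F V}
    (hq : NonSing q) {k : ℕ} {e : Fin k → V} (he : LinearIndependent F e)
    (hee : ∀ i j, q.polarBilin (e i) (e j) = 0) :
    ∃ f : Fin k → V, (∀ i j, q.polarBilin (e i) (f j) = if i = j then 1 else 0) ∧
      ∀ i j, q.polarBilin (f i) (f j) = 0 := by
  classical
  choose g hg using fun j : Fin k => exists_dual_family hq he (fun i => if i = j then (1 : F) else 0)
  refine ⟨fun j => g j - (1 / 2 : F) • ∑ l, q.polarBilin (g j) (g l) • e l, ?_, ?_⟩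
  · intro i j
    simp only [map_sub, map_smul, map_sum, hg, hee, smul_zero, Finset.sum_const_zero, sub_zero]
  · intro i j
    have hge : ∀ i j, q.polarBilin (g i) (e j) = if i = j then 1 else 0 := by
      intro i j
      rw [polarB_symm, hg]
      simp only [eq_comm]
    simp only [map_sub, map_smul, map_sum, LinearMap.sub_apply, LinearMap.smul_apply,
      LinearMap.sum_apply, hg, hee, hge, smul_eq_mul, mul_zero, Finset.sum_const_zero,
      mul_ite, mul_one, Finset.sum_ite_eq, Finset.mem_univ, if_true, sub_zero,
      Finset.sum_ite_eq']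
    rw [polarB_symm q (g j) (g i)]
    field_simp
    ring

/-- The remaining anisotropic vector and the expansion of vectors in a Witt basis. -/
lemma exists_aniso [FiniteDimensional F V] (h2 : (2 : F) ≠ 0) {q : QuadraticForm F V}
    (hq : NonSing q) {n : ℕ} (hd : finrank F V = 2 * n + 1) {e f : Fin n → V}
    (hee : ∀ i j, q.polarBilin (e i) (e j) = 0)
    (hef : ∀ i j, q.polarBilin (e i) (f j) = if i = j then 1 else 0)
    (hff : ∀ i j, q.polarBilin (f i) (f j) = 0) :
    ∃ z : V, q z ≠ 0 ∧ (∀ i, q.polarBilin (e i) z = 0) ∧ (∀ i, q.polarBilin (f i) z = 0) ∧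
      ∀ v, v = ∑ i, q.polarBilin (f i) v • e i + ∑ i, q.polarBilin (e i) v • f i +
        (q.polarBilin z v / (2 * q z)) • z := by
  classical
  have hfe : ∀ i j, q.polarBilin (f i) (e j) = if i = j then 1 else 0 := by
    intro i j
    rw [polarB_symm, hef]
    simp only [eq_comm]
  let T : V →ₗ[F] (Fin n → F) × (Fin n → F) :=
    (LinearMap.pi fun i => q.polarBilin (e i)).prod (LinearMap.pi fun i => q.polarBilin (f i))
  have hT : ∀ v, T v = (fun i => q.polarBilin (e i) v, fun i => q.polarBilin (f i) v) := fun v => rfl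
  have hsurj : LinearMap.range T = ⊤ := by
    rw [LinearMap.range_eq_top]
    rintro ⟨a, b⟩
    refine ⟨∑ i, a i • f i + ∑ i, b i • e i, ?_⟩
    rw [hT]
    ext i
    · simp [-polarBilin_apply_apply, hef, hee]
    · simp [-polarBilin_apply_apply, hff, hfe]
  have hker : finrank F (LinearMap.ker T) = 1 := by
    have h := LinearMap.finrank_range_add_finrank_ker T
    rw [hsurj, finrank_top, hd] at h
    simp only [finrank_prod, finrank_fintype_fun_eq_card, Fintype.card_fin] at h
    omega
  obtain ⟨⟨z, hz⟩, hz0, hz1⟩ := finrank_eq_one_iff'.mp hker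
  have hz0' : z ≠ 0 := fun h => hz0 (Subtype.ext h)
  rw [LinearMap.mem_ker, hT, Prod.mk_eq_zero] at hz
  have hze : ∀ i, q.polarBilin (e i) z = 0 := fun i => congrFun hz.1 i
  have hzf : ∀ i, q.polarBilin (f i) z = 0 := fun i => congrFun hz.2 i
  have hexp : ∀ v, ∃ c : F, v = ∑ i, q.polarBilin (f i) v • e i + ∑ i, q.polarBilin (e i) v • f i +
      c • z := by
    intro v
    have hm : v - (∑ i, q.polarBilin (f i) v • e i + ∑ i, q.polarBilin (e i) v • f i) ∈
        LinearMap.ker T := by
      rw [LinearMap.mem_ker, hT, Prod.mk_eq_zero]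
      constructor
      · ext i
        simp [-polarBilin_apply_apply, hef, hee]
      · ext i
        simp [-polarBilin_apply_apply, hff, hfe]
    obtain ⟨c, hc⟩ := hz1 ⟨_, hm⟩
    refine ⟨c, ?_⟩
    have := congrArg Subtype.val hc
    simp only [SetLike.mk_smul_mk] at this
    rw [this]
    abel
  have hqz : q z ≠ 0 := by
    intro h0
    apply hz0'
    apply hq
    intro y
    change q.polarBilin z y = 0
    obtain ⟨c, hc⟩ := hexp y
    rw [hc]
    simp only [map_add, map_sum, map_smul]
    rw [polarB_self, h0]
    have h1 : ∀ i, q.polarBilin z (e i) = 0 := fun i => by rw [polarB_symm, hze]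
    have h3 : ∀ i, q.polarBilin z (f i) = 0 := fun i => by rw [polarB_symm, hzf]
    simp [-polarBilin_apply_apply, h1, h3]
  refine ⟨z, hqz, hze, hzf, ?_⟩
  intro v
  obtain ⟨c, hc⟩ := hexp v
  have hcz : q.polarBilin z v = c * (2 * q z) := by
    conv_lhs => rw [hc]
    simp only [map_add, map_sum, map_smul]
    have h1 : ∀ i, q.polarBilin z (e i) = 0 := fun i => by rw [polarB_symm, hze]
    have h3 : ∀ i, q.polarBilin z (f i) = 0 := fun i => by rw [polarB_symm, hzf]
    simp [-polarBilin_apply_apply, h1, h3, polarB_self]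
  rw [hcz, mul_div_assoc, div_self (mul_ne_zero h2 hqz), mul_one]
  exact hc

/-- A totally singular subspace of dimension less than the Witt index extends. -/
lemma exists_extend [FiniteDimensional F V] {q : QuadraticForm F V}
    {n : ℕ} (hW : HasWittIndex q n) {X : Submodule F V} (hXn : finrank F X < n) :
    ∃ y, y ∉ X ∧ q y = 0 ∧ ∀ x ∈ X, q.polarBilin x y = 0 := by
  obtain ⟨Z, hZ, hZn⟩ := hW.1
  by_contra hcon
  push Not at hcon
  -- every vector of `Z` orthogonal to `X` lies in `X`
  have hsub : ∀ z ∈ Z, (∀ x ∈ X, q.polarBilin x z = 0) → z ∈ X := by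
    intro z hz hzX
    by_contra hzn
    obtain ⟨x, hx, hne⟩ := hcon z hzn (hZ z hz)
    exact hne (hzX x hx)
  -- the map `Z → X^*`
  let r : Z →ₗ[F] Dual F X := (q.polarBilin.domRestrict Z).compr₂ (LinearMap.id) |>.compl₂ X.subtype
  have hr : ∀ z x, r z x = q.polarBilin (z : V) (x : V) := fun z x => rfl
  let I : Submodule F X := (Z ⊓ X).comap X.subtype
  have hker : finrank F (LinearMap.ker r) ≤ finrank F I := by
    let g : LinearMap.ker r →ₗ[F] I :=
      { toFun := fun z => ⟨⟨((z : Z) : V), hsub _ z.1.2 (fun x hx => by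
            have h1 := z.2
            rw [LinearMap.mem_ker] at h1
            have h3 := congrArg (fun φ => φ ⟨x, hx⟩) h1
            simp only [hr, LinearMap.zero_apply] at h3
            rw [polarB_symm]
            exact h3)⟩,
          ⟨z.1.2, hsub _ z.1.2 (fun x hx => by
            have h1 := z.2
            rw [LinearMap.mem_ker] at h1
            have h3 := congrArg (fun φ => φ ⟨x, hx⟩) h1
            simp only [hr, LinearMap.zero_apply] at h3
            rw [polarB_symm]
            exact h3)⟩⟩
        map_add' := fun a b => rfl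
        map_smul' := fun c a => rfl }
    apply LinearMap.finrank_le_finrank_of_injective (f := g)
    intro a b hab
    have : (((g a : I) : X) : V) = (((g b : I) : X) : V) := by rw [hab]
    exact Subtype.ext (Subtype.ext this)
  have hrange : LinearMap.range r ≤ I.dualAnnihilator := by
    rintro _ ⟨z, rfl⟩
    rw [Submodule.mem_dualAnnihilator]
    intro x hx
    rw [hr]
    exact hZ.polar_eq z.2 hx.1
  have h1 := LinearMap.finrank_range_add_finrank_ker r
  have h3 := Submodule.finrank_mono hrange
  have h4 := Subspace.finrank_add_finrank_dualAnnihilator_eq I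
  omega

end Pool.Agent.Helper10.Ver
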